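import Pool.Agent.U106.OI.Uniq
import Pool.Agent.U106.BI.Step

set_option autoImplicit false

/-!
Billiards in convex polygons: for almost every direction every line from a vertex has records on both
sides, at arbitrarily small distances.
-/

namespace Pool.Agent.U106.OI

open Complex Set MeasureTheory Filter Topology Pool.Agent.W780.PG Pool.Agent.W780.BB
  Pool.Agent.TH103.BL Pool.Agent.N557.BP Pool.Agent.U106.BI

open scoped Real ComplexConjugate

variable {n : ℕ} {p : Fin (n + 3) → ℂ}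

/-- an itinerary along which the line crosses is the itinerary of the orbit -/
theorem itin_eq (hp : IsConvexPolygon p) {z : ℂ} {θ : ℝ} {u w : ℕ → Fin (n + 3)} {t : ℕ → ℝ}
    (O : Orb p z θ u t) {K : ℕ} (hex : ∀ m < K, sl p (w m) (angs p θ w m) < 0)
    (hop : ∀ m < K, vd p z θ w m (w m) * vd p z θ w m (w m + 1) < 0) : ∀ m < K, u m = w m := by
  intro m
  induction m using Nat.strong_induction_on with
  | _ m ih =>
    intro hm
    have hw : ∀ k < m, u k = w k := fun k hk => ih k hk (hk.trans hm)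
    refine Pool.Agent.N262.BP.t_exit n p hp z θ u t O m (w m) ?_ ?_
    · rw [angs_congr hw]
      exact hex m hm
    · rw [vd_congr' hw, vd_congr' hw]
      exact hop m hm

/-- generic points in the strip -/
theorem strip_point (hp : IsConvexPolygon p) {i : Fin (n + 3)} {θ σ δ : ℝ}
    (hσ : σ = 1 ∨ σ = -1) (hδ : 0 < δ) (h1 : 0 < sl p i θ) (h2 : 0 < sl p (i - 1) θ)
    (hO : ∀ᵐ z : ℂ, z ∈ reg p → Ok p z θ 0) :
    ∃ z : ℂ, z ∈ reg p ∧ Ok p z θ 0 ∧ 0 < σ * tv θ (z - p i) ∧ σ * tv θ (z - p i) < δ := by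
  have hss : σ * σ = 1 := by
    rcases hσ with rfl | rfl <;> norm_num
  have hdd : conj (dir θ) * dir θ = 1 := Pool.Agent.N262.BP.conj_dir_mul θ
  obtain ⟨s, hsr⟩ := (enter_ev hp h1 h2).exists
  have hc : Continuous fun ε : ℝ => p i + s • dir θ + ((σ * ε : ℝ) : ℂ) * (I * dir θ) := by
    fun_prop
  have hev : ∀ᶠ ε in 𝓝[>] (0 : ℝ), p i + s • dir θ + ((σ * ε : ℝ) : ℂ) * (I * dir θ) ∈ reg p := by
    have h3 : (fun ε : ℝ => p i + s • dir θ + ((σ * ε : ℝ) : ℂ) * (I * dir θ)) 0 ∈ reg p := by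
      simpa using hsr
    exact (hc.tendsto 0).mono_left nhdsWithin_le_nhds ((reg_open hp).mem_nhds h3)
  obtain ⟨ε, hε1, hε2, hε3⟩ := (hev.and (Ioo_mem_nhdsGT hδ)).exists
  have htv : Continuous fun z : ℂ => σ * tv θ (z - p i) := by
    unfold tv
    fun_prop
  have hval : σ * tv θ (p i + s • dir θ + ((σ * ε : ℝ) : ℂ) * (I * dir θ) - p i) = ε := by
    have e : conj (dir θ) * (p i + s • dir θ + ((σ * ε : ℝ) : ℂ) * (I * dir θ) - p i) =
        (s : ℂ) + ((σ * ε : ℝ) : ℂ) * I := by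
      rw [real_smul]
      linear_combination ((s : ℂ) + ((σ * ε : ℝ) : ℂ) * I) * hdd
    unfold tv
    rw [e]
    have : ((s : ℂ) + ((σ * ε : ℝ) : ℂ) * I).im = σ * ε := by simp
    rw [this, ← mul_assoc, hss, one_mul]
  have hW : ∀ᶠ z in 𝓝 (p i + s • dir θ + ((σ * ε : ℝ) : ℂ) * (I * dir θ)),
      z ∈ reg p ∧ 0 < σ * tv θ (z - p i) ∧ σ * tv θ (z - p i) < δ := by
    refine Eventually.and ((reg_open hp).mem_nhds hε1) (Eventually.and ?_ ?_)
    · exact (htv.tendsto _).eventually_const_lt (by rw [hval]; exact hε2)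
    · exact (htv.tendsto _).eventually_lt_const (by rw [hval]; exact hε3)
  obtain ⟨z, hz, hz1, hz2, hz3⟩ := (Measure.dense_of_ae hO).inter_nhds_nonempty hW
  exact ⟨z, hz1, hz hz1, hz2, hz3⟩

/-- The first vertex in the strip of width `δ` on one side of the line from `p i`. -/
theorem cover1 (hp : IsConvexPolygon p) {i : Fin (n + 3)} {θ σ δ : ℝ}
    (hσ : σ = 1 ∨ σ = -1) (hδ : 0 < δ) (h1 : 0 < sl p i θ) (h2 : 0 < sl p (i - 1) θ)
    (hg : ∀ z : ℂ,
      (∀ w j, ∀ s : ℝ, 0 < s → z + s • dir θ ≠ uf p w (p j)) ∨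
      (∀ w j, ∀ s : ℝ, 0 < s → z - s • dir θ ≠ uf p w (p j)))
    (hA : ∀ z ∈ reg p, ∀ (u : ℕ → Fin (n + 3)) (t : ℕ → ℝ), Orb p z θ u t →
      ∀ ε : ℝ, 0 < ε → ∃ (K : ℕ) (j : Fin (n + 3)), ‖pt p z θ u t K - p j‖ < ε)
    (hO : ∀ᵐ z : ℂ, z ∈ reg p → Ok p z θ 0) :
    ∃ (u : ℕ → Fin (n + 3)) (t : ℕ → ℝ) (K : ℕ) (j : Fin (n + 3)), Orb p (p i) θ u t ∧
      0 < -((-1) ^ K * σ) * vd p (p i) θ u K j ∧ -((-1) ^ K * σ) * vd p (p i) θ u K j < δ ∧
      Rec p i σ (-((-1) ^ K * σ) * vd p (p i) θ u K j) K u θ := by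
  classical
  obtain ⟨u, t, O⟩ := exists_orb hp (ok_vertex hp h1 h2 hg)
  have hopp := my_opp n p hp (p i) θ u t O
  have hne : ∀ m, vd p (p i) θ u m (u m) ≠ 0 ∧ vd p (p i) θ u m (u m + 1) ≠ 0 := by
    intro m
    have h := hopp m
    constructor
    · intro h0
      rw [h0, zero_mul] at h
      exact lt_irrefl _ h
    · intro h0
      rw [h0, mul_zero] at h
      exact lt_irrefl _ h
  have hsne : ∀ m, (-1 : ℝ) ^ m * σ ≠ 0 := by
    intro m h0
    have := sign_sq hσ m
    rw [h0, zero_mul] at this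
    exact zero_ne_one this
  -- a vertex in the strip
  have hex : ∃ K, ∃ j, (j = u K ∨ j = u K + 1) ∧ -δ < (-1) ^ K * σ * vd p (p i) θ u K j ∧
      (-1) ^ K * σ * vd p (p i) θ u K j < 0 := by
    by_contra hcon
    push Not at hcon
    have hdich : ∀ m j, (j = u m ∨ j = u m + 1) → 0 < (-1) ^ m * σ * vd p (p i) θ u m j ∨
        (-1) ^ m * σ * vd p (p i) θ u m j ≤ -δ := by
      intro m j hj
      by_cases hc : -δ < (-1) ^ m * σ * vd p (p i) θ u m j
      · left
        refine lt_of_le_of_ne (hcon m j hj hc) (Ne.symm (mul_ne_zero (hsne m) ?_))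
        rcases hj with rfl | rfl
        · exact (hne m).1
        · exact (hne m).2
      · exact Or.inr (not_lt.1 hc)
    obtain ⟨z, hzr, hzOk, hc1, hc2⟩ := strip_point hp hσ hδ h1 h2 hO
    obtain ⟨u', t', O'⟩ := exists_orb hp hzOk
    set c : ℝ := σ * tv θ (z - p i) with hc
    have htc : tv θ (z - p i) = σ * c := by
      rw [hc, ← mul_assoc]
      have hss : σ * σ = 1 := by
        rcases hσ with rfl | rfl <;> norm_num
      rw [hss, one_mul]
    have hsh : ∀ m j, vd p z θ u m j = vd p (p i) θ u m j + (-1) ^ m * σ * c := by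
      intro m j
      rw [t_shift n p (p i) z θ u m j, htc]
      ring
    have hu : ∀ m, u m = u' m := by
      intro m
      have := itin_eq hp O' (w := u) (K := m + 1) (fun k _ => sl_neg hp O k) (fun k _ => by
        rw [hsh, hsh]
        exact sign_shift (sign_sq hσ k) (hopp k) hc1.le hc2 (hdich k _ (Or.inl rfl))
          (hdich k _ (Or.inr rfl))) m (Nat.lt_succ_self m)
      exact this.symm
    have huu : u' = u := funext fun m => (hu m).symm
    rw [huu] at O'
    obtain ⟨K, -, j, hj, hjd⟩ := Pool.Agent.N329.BP.t_first n p hp z θ u t' O'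
      (hA z hzr u t' O') (min c (δ - c)) (lt_min hc1 (by linarith))
    have e1 : (-1) ^ K * σ * vd p z θ u K j = (-1) ^ K * σ * vd p (p i) θ u K j + c := by
      rw [hsh, mul_add]
      have := sign_sq hσ K
      linear_combination c * this
    have e2 : |(-1) ^ K * σ * vd p z θ u K j| < min c (δ - c) := by
      have h3 : |(-1 : ℝ) ^ K * σ| = 1 := by
        rw [abs_mul, abs_pow, abs_neg, abs_one, one_pow, one_mul]
        rcases hσ with rfl | rfl <;> simp
      rw [abs_mul, h3, one_mul]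
      exact hjd
    rw [e1, abs_lt] at e2
    have h4 := min_le_left c (δ - c)
    have h5 := min_le_right c (δ - c)
    rcases hdich K j hj with h6 | h6
    · linarith [e2.2]
    · linarith [e2.1]
  obtain ⟨j, hj, hj1, hj2⟩ := Nat.find_spec hex
  have hmin : ∀ m < Nat.find hex, ∀ q, (q = u m ∨ q = u m + 1) →
      0 < (-1) ^ m * σ * vd p (p i) θ u m q ∨ (-1) ^ m * σ * vd p (p i) θ u m q ≤ -δ := by
    intro m hm q hq
    have h3 := Nat.find_min hex hm
    push Not at h3
    by_cases hc : -δ < (-1) ^ m * σ * vd p (p i) θ u m q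
    · left
      refine lt_of_le_of_ne (h3 q hq hc) (Ne.symm (mul_ne_zero (hsne m) ?_))
      rcases hq with rfl | rfl
      · exact (hne m).1
      · exact (hne m).2
    · exact Or.inr (not_lt.1 hc)
  have hmin' : ∀ m < Nat.find hex, ∀ q, (q = u m ∨ q = u m + 1) →
      0 < (-1) ^ m * σ * vd p (p i) θ u m q ∨ (-1) ^ m * σ * vd p (p i) θ u m q ≤
        -(-((-1) ^ (Nat.find hex) * σ) * vd p (p i) θ u (Nat.find hex) j) := by
    intro m hm q hq
    rcases hmin m hm q hq with h3 | h3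
    · exact Or.inl h3
    · right
      linarith
  refine ⟨u, t, Nat.find hex, j, O, by linarith, by linarith, h1, fun m _ => sl_neg hp O m,
    fun m _ => hopp m, fun m hm => hmin' m hm _ (Or.inl rfl), fun m hm => hmin' m hm _ (Or.inr rfl)⟩

end Pool.Agent.U106.OI
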