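import Pool.Agent.U106.OI.Vtx
import Pool.Agent.U106.BI.Comp

set_option autoImplicit false

/-!
Billiards in convex polygons: invariant sets whose slices have interior points, and open invariant
sets.
-/

namespace Pool.Agent.U106.OI

open Complex Set MeasureTheory Filter Topology Pool.Agent.W780.PG Pool.Agent.W780.BB
  Pool.Agent.TH103.BL Pool.Agent.N557.BP Pool.Agent.U106.BI

open scoped Real ComplexConjugate

variable {n : ℕ} {p : Fin (n + 3) → ℂ}

/-- The slice `A_θ` contains almost every point of a nonempty open subset of the polygon. -/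
def HasInterior (p : Fin (n + 3) → ℂ) (A : Set (ℂ × ℝ)) (θ : ℝ) : Prop :=
  ∃ O : Set ℂ, IsOpen O ∧ O.Nonempty ∧ O ⊆ region p ∧ ∀ᵐ z : ℂ, z ∈ O → (z, θ) ∈ A

/-- The slice `A_θ` contains almost every point of the polygon near the vertex `p i`. -/
def FullNear (p : Fin (n + 3) → ℂ) (A : Set (ℂ × ℝ)) (i : Fin (n + 3)) (θ : ℝ) : Prop :=
  ∃ r : ℝ, 0 < r ∧ ∀ᵐ z : ℂ, z ∈ region p → ‖z - p i‖ < r → (z, θ) ∈ A

/-- The slice `A_θ` contains almost every point near the vertex `p i` which is, in the polygon, on the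
side `σ` (`1`: left, `-1`: right) of the line through `p i` in the direction `θ`. -/
def FullBeside (p : Fin (n + 3) → ℂ) (A : Set (ℂ × ℝ)) (i : Fin (n + 3)) (σ θ : ℝ) : Prop :=
  ∃ r : ℝ, 0 < r ∧ ∀ᵐ z : ℂ, z ∈ region p → ‖z - p i‖ < r → 0 < σ * sd p i (z, θ) → (z, θ) ∈ A

theorem mem_one {A : Set (ℂ × ℝ)} {x : ℂ × ℝ} : ind A x ∈ ({1} : Set ℝ) ↔ x ∈ A := by
  rw [mem_singleton_iff, ind_eq]

theorem full_iff (hp : IsConvexPolygon p) {A : Set (ℂ × ℝ)} {i : Fin (n + 3)} {θ : ℝ} :
    θ ∈ FU p (ind A) {1} i ↔ FullNear p A i θ := by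
  rw [fu_iff]
  unfold FullNear
  simp only [mem_one, region_eq hp]

theorem op_of_interior (hp : IsConvexPolygon p) {A : Set (ℂ × ℝ)} {θ : ℝ}
    (h : HasInterior p A θ) : Op p (ind A) {1} θ := by
  obtain ⟨O, hO, ⟨z0, hz0⟩, hsub, hae⟩ := h
  obtain ⟨ρ, hρ, hball⟩ := Metric.isOpen_iff.1 hO z0 hz0
  refine ⟨z0, by rw [← region_eq hp]; exact hsub hz0, ρ, hρ, ?_⟩
  filter_upwards [hae] with z hz _ h2
  exact mem_one.2 (hz (hball (by rw [mem_ball_iff_norm]; exact h2)))

/-- (1) interior of slices implies a vertex -/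
theorem set_vertex (hp : IsConvexPolygon p) (hirr : ∀ i, Irrational (ang p i / π))
    {A : Set (ℂ × ℝ)} (hA : MeasurableSet A) (hI : IsInvariant p A)
    (hpos : ¬ ∀ᵐ θ : ℝ, ¬ HasInterior p A θ) : ∃ i, ∀ᵐ θ : ℝ, FullNear p A i θ := by
  have hm : Measurable (ind A) := measurable_const.indicator hA
  obtain ⟨i, hi⟩ := vertex_of_open hp hirr hm (ind_inv hI) (measurableSet_singleton (1 : ℝ)) (by
    intro h
    apply hpos
    filter_upwards [h] with θ hθ h1
    exact hθ (op_of_interior hp h1))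
  refine ⟨i, ?_⟩
  filter_upwards [hi] with θ hθ
  exact (full_iff hp).1 hθ

/-- (2) the dichotomy at a vertex -/
theorem set_dich (hp : IsConvexPolygon p) (hirr : ∀ i, Irrational (ang p i / π))
    {A : Set (ℂ × ℝ)} (hA : MeasurableSet A) (hI : IsInvariant p A) (i : Fin (n + 3)) :
    (∀ᵐ θ : ℝ, FullNear p A i θ) ∨
    ∀ᵐ θ : ℝ, (∃ s : ℝ, p i + s • dir θ ∈ region p) →
      ¬ FullBeside p A i 1 θ ∧ ¬ FullBeside p A i (-1) θ := by
  have hm : Measurable (ind A) := measurable_const.indicator hA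
  have hC := measurableSet_singleton (1 : ℝ)
  rcases dich hp hm (ind_inv hI) hC (hirr i) with h | h
  · right
    have h0 := measure_eq_zero_iff_ae_notMem.1 h
    filter_upwards [h0, two_out hp hm (ind_inv hI) hC i (Or.inl rfl),
      two_out hp hm (ind_inv hI) hC i (Or.inr rfl), two_in hp hm (ind_inv hI) hC i (Or.inl rfl),
      two_in hp hm (ind_inv hI) hC i (Or.inr rfl)] with θ g o1 o2 q1 q2 ⟨s, hs⟩
    rw [region_eq hp] at hs
    have e0 : sf p i (p i) = 0 := sf_self_left i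
    have e1 : sf p (i - 1) (p i) = 0 := sf_self_right i
    have a1 : 0 < sf p i (p i + s • dir θ) := hs i
    have a2 : 0 < sf p (i - 1) (p i + s • dir θ) := hs (i - 1)
    rw [sf_ray, e0, zero_add] at a1
    rw [sf_ray, e1, zero_add] at a2
    have hst : ∀ σ : ℝ, (σ = 1 ∨ σ = -1) → FullBeside p A i σ θ →
        ∃ r' : ℝ, 0 < r' ∧ θ ∈ SC p (ind A) {1} i σ r' := by
      rintro σ hσ ⟨r, hr, hae⟩
      refine strip1 hp (ind_inv hI) hσ hr hs ?_
      filter_upwards [hae] with z hz h1 h2 h3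
      exact mem_one.2 (hz (by rw [region_eq hp]; exact h1) h2 h3)
    rcases lt_trichotomy s 0 with h1 | h1 | h1
    · have b1 : sl p i θ < 0 := by
        by_contra hc
        exact absurd a1 (not_lt.2 (mul_nonpos_of_nonpos_of_nonneg h1.le (not_lt.1 hc)))
      have b2 : sl p (i - 1) θ < 0 := by
        by_contra hc
        exact absurd a2 (not_lt.2 (mul_nonpos_of_nonpos_of_nonneg h1.le (not_lt.1 hc)))
      exact ⟨fun hb => g (q1 b1 b2 (hst 1 (Or.inl rfl) hb)),
        fun hb => g (q2 b1 b2 (hst (-1) (Or.inr rfl) hb))⟩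
    · rw [h1, zero_mul] at a1
      exact absurd a1 (lt_irrefl _)
    · have b1 : 0 < sl p i θ := (mul_pos_iff_of_pos_left h1).1 a1
      have b2 : 0 < sl p (i - 1) θ := (mul_pos_iff_of_pos_left h1).1 a2
      exact ⟨fun hb => g (o1 b1 b2 (hst 1 (Or.inl rfl) hb)),
        fun hb => g (o2 b1 b2 (hst (-1) (Or.inr rfl) hb))⟩
  · left
    filter_upwards [h] with θ hθ
    exact (full_iff hp).1 hθ

/-- sets which are full near the same vertex have an intersection of positive measure -/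
theorem full_meet (hp : IsConvexPolygon p) {A B : Set (ℂ × ℝ)} {i : Fin (n + 3)}
    (h1 : ∀ᵐ θ : ℝ, FullNear p A i θ) (h2 : ∀ᵐ θ : ℝ, FullNear p B i θ) :
    volume {x : ℂ × ℝ | x.1 ∈ region p ∧ x ∈ A ∧ x ∈ B} ≠ 0 := by
  intro h0
  have h3 : ∀ᵐ θ : ℝ, ∀ᵐ z : ℂ, ¬ (z ∈ region p ∧ (z, θ) ∈ A ∧ (z, θ) ∈ B) := by
    have h4 : ∀ᵐ x : ℂ × ℝ, ¬ (x.1 ∈ region p ∧ x ∈ A ∧ x ∈ B) :=
      measure_eq_zero_iff_ae_notMem.1 h0
    rw [Measure.volume_eq_prod] at h4
    exact Measure.ae_ae_of_ae_prod (Measure.measurePreserving_swap.quasiMeasurePreserving.ae h4)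
  obtain ⟨θ, ⟨⟨r1, hr1, ha⟩, r2, hr2, hb⟩, h5⟩ := ((h1.and h2).and h3).exists
  obtain ⟨z0, hz0, hz1⟩ := near_vertex hp i (lt_min hr1 hr2)
  have hev : ∀ᶠ z in 𝓝 z0, z ∈ reg p ∧ ‖z - p i‖ < min r1 r2 := by
    have c1 : ∀ᶠ z in 𝓝 z0, z ∈ reg p := (reg_open hp).mem_nhds hz0
    have c2 : ∀ᶠ z in 𝓝 z0, ‖z - p i‖ < min r1 r2 := by
      have : Continuous fun z : ℂ => ‖z - p i‖ := by fun_prop
      exact (this.tendsto z0).eventually_lt_const hz1
    exact c1.and c2
  obtain ⟨z, ⟨⟨ha', hb'⟩, h5'⟩, hz2, hz3⟩ :=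
    (Measure.dense_of_ae ((ha.and hb).and h5)).inter_nhds_nonempty hev
  have hzr : z ∈ region p := by rw [region_eq hp]; exact hz2
  exact h5' ⟨hzr, ha' hzr (hz3.trans_le (min_le_left _ _)), hb' hzr (hz3.trans_le (min_le_right _ _))⟩

/-- a family of almost disjoint sets, each full near a vertex -/
theorem card_le (hp : IsConvexPolygon p) {F : Set (Set (ℂ × ℝ))}
    (hv : ∀ A ∈ F, ∃ i, ∀ᵐ θ : ℝ, FullNear p A i θ)
    (hdis : ∀ A ∈ F, ∀ B ∈ F, A ≠ B → volume {x : ℂ × ℝ | x.1 ∈ region p ∧ x ∈ A ∧ x ∈ B} = 0) :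
    F.Finite ∧ F.ncard ≤ n + 3 := by
  choose! v hv using hv
  have hinj : InjOn v F := by
    intro A hA B hB hAB
    by_contra hne
    have h2 := hv B hB
    rw [← hAB] at h2
    exact full_meet hp (hv A hA) h2 (hdis A hA B hB hne)
  have hfin : F.Finite := Set.Finite.of_finite_image (Set.toFinite (v '' F)) hinj
  refine ⟨hfin, ?_⟩
  calc F.ncard = (v '' F).ncard := hinj.ncard_image.symm
    _ ≤ (univ : Set (Fin (n + 3))).ncard := ncard_le_ncard (subset_univ _)
    _ = n + 3 := by rw [ncard_univ, Nat.card_fin]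

/-- An open set of states, invariant under the billiard flow. -/
structure IsOpenInvariant (p : Fin (n + 3) → ℂ) (U : Set (ℂ × ℝ)) : Prop where
  sub : U ⊆ region p ×ˢ univ
  isOpen : IsOpen U
  inv : IsInvariant p U

theorem open_interior {U : Set (ℂ × ℝ)} (hU : IsOpenInvariant p U) (hne : U.Nonempty) :
    ¬ ∀ᵐ θ : ℝ, ¬ HasInterior p U θ := by
  intro h
  obtain ⟨⟨z0, θ0⟩, hx⟩ := hne
  obtain ⟨ρ, hρ, hball⟩ := Metric.isOpen_iff.1 hU.isOpen _ hx
  have hprod : ∀ z θ, dist z z0 < ρ → dist θ θ0 < ρ → (z, θ) ∈ U := by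
    intro z θ h1 h2
    apply hball
    rw [Metric.mem_ball, Prod.dist_eq]
    exact max_lt h1 h2
  obtain ⟨θ, hθ, hθ2⟩ := (Measure.dense_of_ae h).inter_nhds_nonempty (Metric.ball_mem_nhds θ0 hρ)
  rw [Metric.mem_ball] at hθ2
  refine hθ ⟨Metric.ball z0 ρ, Metric.isOpen_ball, ⟨z0, Metric.mem_ball_self hρ⟩, ?_, ?_⟩
  · intro z hz
    exact (hU.sub (hprod z θ hz hθ2)).1
  · exact Eventually.of_forall fun z hz => hprod z θ hz hθ2

/-! ### Closures of invariant sets -/

theorem clos_iff {X : Type*} [TopologicalSpace X] (g : X ≃ₜ X) {V : Set X} {x : X}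
    (h : ∀ᶠ y in 𝓝 x, (y ∈ V ↔ g y ∈ V)) : x ∈ closure V ↔ g x ∈ closure V := by
  rw [mem_closure_iff_frequently, mem_closure_iff_frequently, ← g.map_nhds_eq, frequently_map]
  exact frequently_congr h

/-- free motion of states -/
noncomputable def shear (s : ℝ) : (ℂ × ℝ) ≃ₜ (ℂ × ℝ) where
  toFun x := (x.1 + s • dir x.2, x.2)
  invFun x := (x.1 - s • dir x.2, x.2)
  left_inv x := by simp
  right_inv x := by simp
  continuous_toFun := by
    have : Continuous dir := by unfold dir; fun_prop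
    fun_prop
  continuous_invFun := by
    have : Continuous dir := by unfold dir; fun_prop
    fun_prop

/-- reflection of states -/
noncomputable def refl (hp : IsConvexPolygon p) (i : Fin (n + 3)) : (ℂ × ℝ) ≃ₜ (ℂ × ℝ) where
  toFun x := (rf p i x.1, 2 * tau p i - x.2)
  invFun x := (rf p i x.1, 2 * tau p i - x.2)
  left_inv x := by simp [rf_rf hp]
  right_inv x := by simp [rf_rf hp]
  continuous_toFun := by
    have : Continuous (rf p i) := by unfold rf; fun_prop
    fun_prop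
  continuous_invFun := by
    have : Continuous (rf p i) := by unfold rf; fun_prop
    fun_prop

theorem ch_one (hp : IsConvexPolygon p) {i : Fin (n + 3)} {y : ℂ} (hy : y ∈ side p i)
    {θ s r : ℝ} (hs : 0 < s) (hr : 0 < r) (h1 : y - s • dir θ ∈ reg p)
    (h2 : y + r • dir (2 * tau p i - θ) ∈ reg p) :
    Ch p [i] (y - s • dir θ) (y - s • dir θ + (s + r) • dir θ) := by
  have h0 : sf p i y = 0 := side_zero hp hy
  have e1 : y - s • dir θ + (s + r) • dir θ = y + r • dir θ := by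
    rw [add_smul]; ring
  have hB : sf p i (y - s • dir θ) = -(s * sl p i θ) := by
    have : y - s • dir θ = y + (-s) • dir θ := by rw [neg_smul]; ring
    rw [this, sf_ray, h0]; ring
  have hA : sf p i (y + r • dir θ) = r * sl p i θ := by rw [sf_ray, h0, zero_add]
  have hBpos : 0 < sf p i (y - s • dir θ) := h1 i
  have hsl : sl p i θ < 0 := by
    rw [hB] at hBpos
    by_contra hc
    have := mul_nonneg hs.le (not_lt.1 hc)
    linarith
  have hcr : cr p i (y - s • dir θ) (y + r • dir θ) = y := by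
    unfold cr
    rw [hB, hA]
    have e2 : (-(s * sl p i θ)) / (-(s * sl p i θ) - r * sl p i θ) = s / (s + r) := by
      have h3 : -(s * sl p i θ) - r * sl p i θ ≠ 0 := by
        have : -(s * sl p i θ) - r * sl p i θ = (s + r) * (-sl p i θ) := by ring
        rw [this]
        exact (mul_pos (by linarith) (by linarith)).ne'
      have h4 : s + r ≠ 0 := by linarith
      rw [div_eq_div_iff h3 h4]
      ring
    have e3 : y + r • dir θ - (y - s • dir θ) = (s + r) • dir θ := by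
      rw [add_smul]; ring
    rw [e2, e3, smul_smul, div_mul_cancel₀ _ (by linarith : s + r ≠ 0)]
    ring
  rw [e1]
  refine ⟨hBpos, ?_, ?_, ?_⟩
  · rw [hA]
    exact mul_neg_of_pos_of_neg hr hsl
  · intro j hj
    rw [hcr]
    exact side_pos hp hy hj
  · show rf p i (y + r • dir θ) ∈ reg p
    rw [rf_ray hp, rf_fix hp _ _ h0]
    exact h2

/-- The complement of the closure of an open invariant set is invariant. -/
theorem compl_inv (hp : IsConvexPolygon p) {V : Set (ℂ × ℝ)} (hV : IsInvariant p V) :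
    IsOpenInvariant p ((region p ×ˢ univ) \ closure V) := by
  have hrr := region_eq hp
  have hdir : Continuous dir := by unfold dir; fun_prop
  have hopen : IsOpen (region p) := isOpen_interior
  refine ⟨sdiff_subset, (hopen.prod isOpen_univ).sdiff isClosed_closure, ?_, ?_, ?_⟩
  · intro z θ
    have h1 : (z, θ) ∈ closure V ↔ (z, θ + 2 * π) ∈ closure V :=
      clos_iff ((Homeomorph.refl ℂ).prodCongr (Homeomorph.addRight (2 * π)))
        (Eventually.of_forall fun x => (hV.periodic x.1 x.2).symm)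
    constructor
    · rintro ⟨⟨h2, -⟩, h3⟩
      exact ⟨⟨h2, trivial⟩, fun h4 => h3 (h1.1 h4)⟩
    · rintro ⟨⟨h2, -⟩, h3⟩
      exact ⟨⟨h2, trivial⟩, fun h4 => h3 (h1.2 h4)⟩
  · intro z θ s h1 h2
    have h3 : (z, θ) ∈ closure V ↔ (z + s • dir θ, θ) ∈ closure V := by
      refine clos_iff (shear s) ?_
      have c1 : ∀ᶠ x : ℂ × ℝ in 𝓝 (z, θ), x.1 ∈ region p :=
        (continuous_fst.tendsto (z, θ)) (hopen.mem_nhds h1)
      have hc : Continuous fun x : ℂ × ℝ => x.1 + s • dir x.2 := by fun_prop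
      have c2 : ∀ᶠ x : ℂ × ℝ in 𝓝 (z, θ), x.1 + s • dir x.2 ∈ region p :=
        (hc.tendsto (z, θ)) (hopen.mem_nhds h2)
      filter_upwards [c1, c2] with x hx1 hx2
      exact hV.free x.1 x.2 s hx1 hx2
    constructor
    · rintro ⟨-, h4⟩
      exact ⟨⟨h2, trivial⟩, fun h5 => h4 (h3.2 h5)⟩
    · rintro ⟨-, h4⟩
      exact ⟨⟨h1, trivial⟩, fun h5 => h4 (h3.1 h5)⟩
  · intro i y hy θ s r hs hr h1 h2
    have h3 : (y - s • dir θ, θ) ∈ closure V ↔
        (y + r • dir (2 * tau p i - θ), 2 * tau p i - θ) ∈ closure V := by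
      have hg : ((shear (s + r)).trans (refl hp i)) (y - s • dir θ, θ) =
          (y + r • dir (2 * tau p i - θ), 2 * tau p i - θ) := by
        show (rf p i (y - s • dir θ + (s + r) • dir θ), 2 * tau p i - θ) = _
        have e1 : y - s • dir θ + (s + r) • dir θ = y + r • dir θ := by
          rw [add_smul]; ring
        rw [e1, rf_ray hp, rf_fix hp _ _ (side_zero hp hy)]
      rw [← hg]
      refine clos_iff _ ?_
      have hch := ch_one hp hy hs hr (by rw [← hrr]; exact h1) (by rw [← hrr]; exact h2)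
      have hc : Continuous fun x : ℂ × ℝ => x.1 + (s + r) • dir x.2 := by fun_prop
      have c1 : ∀ᶠ x : ℂ × ℝ in 𝓝 (y - s • dir θ, θ), x.1 ∈ region p :=
        (continuous_fst.tendsto (y - s • dir θ, θ)) (hopen.mem_nhds h1)
      have c2 : ∀ᶠ x : ℂ × ℝ in 𝓝 (y - s • dir θ, θ), Ch p [i] x.1 (x.1 + (s + r) • dir x.2) :=
        (((Pool.Agent.W762.BB.open_it n p hp [i]).preimage
          (continuous_fst.prodMk hc)).mem_nhds hch)
      filter_upwards [c1, c2] with x hx1 hx2
      have h4 := Pool.Agent.W82.BB.inv hR hH n p hp V hV [i] x.1 x.2 (s + r)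
        (by rw [← hrr]; exact hx1) hx2
      exact h4
    constructor
    · rintro ⟨-, h4⟩
      exact ⟨⟨h2, trivial⟩, fun h5 => h4 (h3.2 h5)⟩
    · rintro ⟨-, h4⟩
      exact ⟨⟨h1, trivial⟩, fun h5 => h4 (h3.1 h5)⟩

theorem inter_inv {U V : Set (ℂ × ℝ)} (hU : IsOpenInvariant p U) (hV : IsOpenInvariant p V) :
    IsOpenInvariant p (U ∩ V) := by
  refine ⟨fun x hx => hU.sub hx.1, hU.isOpen.inter hV.isOpen, ?_, ?_, ?_⟩
  · intro z θ
    exact and_congr (hU.inv.periodic z θ) (hV.inv.periodic z θ)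
  · intro z θ s h1 h2
    exact and_congr (hU.inv.free z θ s h1 h2) (hV.inv.free z θ s h1 h2)
  · intro i y hy θ s r hs hr h1 h2
    exact and_congr (hU.inv.reflect i y hy θ s r hs hr h1 h2) (hV.inv.reflect i y hy θ s r hs hr h1 h2)

theorem sUnion_inv {F : Set (Set (ℂ × ℝ))} (hF : ∀ U ∈ F, IsOpenInvariant p U) :
    IsOpenInvariant p (⋃₀ F) := by
  refine ⟨sUnion_subset fun U hU => (hF U hU).sub, isOpen_sUnion fun U hU => (hF U hU).isOpen,
    ?_, ?_, ?_⟩
  · intro z θ
    simp only [mem_sUnion]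
    exact exists_congr fun U => and_congr_right fun hU => (hF U hU).inv.periodic z θ
  · intro z θ s h1 h2
    simp only [mem_sUnion]
    exact exists_congr fun U => and_congr_right fun hU => (hF U hU).inv.free z θ s h1 h2
  · intro i y hy θ s r hs hr h1 h2
    simp only [mem_sUnion]
    exact exists_congr fun U => and_congr_right fun hU =>
      (hF U hU).inv.reflect i y hy θ s r hs hr h1 h2

/-- a family of pairwise disjoint nonempty open invariant sets -/
structure IsFam (p : Fin (n + 3) → ℂ) (F : Set (Set (ℂ × ℝ))) : Prop where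
  inv : ∀ U ∈ F, IsOpenInvariant p U
  ne : ∀ U ∈ F, U.Nonempty
  dis : F.PairwiseDisjoint id

theorem fam_card (hp : IsConvexPolygon p) (hirr : ∀ i, Irrational (ang p i / π))
    {F : Set (Set (ℂ × ℝ))} (hF : IsFam p F) : F.Finite ∧ F.ncard ≤ n + 3 :=
  card_le hp (fun U hU => set_vertex hp hirr (hF.inv U hU).isOpen.measurableSet (hF.inv U hU).inv
    (open_interior (hF.inv U hU) (hF.ne U hU))) (by
      intro A hA B hB hne
      have h1 : {x : ℂ × ℝ | x.1 ∈ region p ∧ x ∈ A ∧ x ∈ B} = ∅ := by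
        refine eq_empty_of_forall_notMem ?_
        rintro x ⟨-, h2, h3⟩
        exact (Set.disjoint_left.1 (hF.dis hA hB hne)) h2 h3
      rw [h1, measure_empty])

/-- The decomposition into topologically transitive open invariant sets. -/
theorem decomposition (hp : IsConvexPolygon p) (hirr : ∀ i, Irrational (ang p i / π)) :
    ∃ F : Set (Set (ℂ × ℝ)), F.Finite ∧ F.ncard ≤ n + 3 ∧ IsFam p F ∧
      region p ×ˢ univ ⊆ closure (⋃₀ F) ∧
      ∀ U ∈ F, ∀ V, IsOpenInvariant p V → V.Nonempty → V ⊆ U → U ⊆ closure V := by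
  classical
  -- a family with the largest number of sets
  have hex : ∃ m, (∃ F, IsFam p F ∧ F.ncard = m) ∧ ∀ F, IsFam p F → F.ncard ≤ m := by
    have h0 : ∃ m, ∃ F, IsFam p F ∧ F.ncard = m :=
      ⟨0, ∅, ⟨by simp, by simp, by simp⟩, by simp⟩
    have hbd : ∀ m, (∃ F, IsFam p F ∧ F.ncard = m) → m ≤ n + 3 := by
      rintro m ⟨F, hF, rfl⟩
      exact (fam_card hp hirr hF).2
    obtain ⟨m0, hm0⟩ := h0
    refine ⟨Nat.findGreatest (fun m => ∃ F, IsFam p F ∧ F.ncard = m) (n + 3),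
      Nat.findGreatest_spec (P := fun m => ∃ F, IsFam p F ∧ F.ncard = m) (hbd m0 hm0) hm0,
      fun F hF => Nat.le_findGreatest (fam_card hp hirr hF).2 ⟨F, hF, rfl⟩⟩
  obtain ⟨m, ⟨F, hF, hFm⟩, hmax⟩ := hex
  obtain ⟨hfin, hcard⟩ := fam_card hp hirr hF
  refine ⟨F, hfin, hcard, hF, ?_, ?_⟩
  · -- the union is dense
    by_contra hcon
    obtain ⟨x, hx1, hx2⟩ := not_subset.1 hcon
    set W : Set (ℂ × ℝ) := (region p ×ˢ univ) \ closure (⋃₀ F) with hW
    have hWI : IsOpenInvariant p W := compl_inv hp (sUnion_inv hF.inv).inv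
    have hWne : W.Nonempty := ⟨x, hx1, hx2⟩
    have hWd : ∀ U ∈ F, Disjoint W U := by
      intro U hU
      rw [Set.disjoint_left]
      intro y hy1 hy2
      exact hy1.2 (subset_closure ⟨U, hU, hy2⟩)
    have hWF : W ∉ F := by
      intro h
      obtain ⟨y, hy⟩ := hWne
      exact (Set.disjoint_left.1 (hWd W h)) hy hy
    have hFam : IsFam p (insert W F) := by
      refine ⟨?_, ?_, ?_⟩
      · rintro U (rfl | hU)
        · exact hWI
        · exact hF.inv U hU
      · rintro U (rfl | hU)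
        · exact hWne
        · exact hF.ne U hU
      · exact (pairwiseDisjoint_insert_of_notMem hWF).2 ⟨hF.dis, fun U hU => hWd U hU⟩
    have h1 := hmax _ hFam
    rw [ncard_insert_of_notMem hWF hfin, hFm] at h1
    omega
  · -- transitivity
    intro U hU V hV hVne hVU
    by_contra hcon
    obtain ⟨x, hx1, hx2⟩ := not_subset.1 hcon
    set W : Set (ℂ × ℝ) := U ∩ ((region p ×ˢ univ) \ closure V) with hW
    have hWI : IsOpenInvariant p W := inter_inv (hF.inv U hU) (compl_inv hp hV.inv)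
    have hWne : W.Nonempty := ⟨x, hx1, (hF.inv U hU).sub hx1, hx2⟩
    have hWV : Disjoint W V := by
      rw [Set.disjoint_left]
      intro y hy1 hy2
      exact hy1.2.2 (subset_closure hy2)
    set F' : Set (Set (ℂ × ℝ)) := F \ {U} with hF'
    have hF'fin : F'.Finite := hfin.subset sdiff_subset
    have hdU : ∀ T ∈ F', Disjoint T U := by
      intro T hT
      exact hF.dis hT.1 hU (fun h => hT.2 (by rw [h]; rfl))
    have hVF' : V ∉ F' := by
      intro h
      obtain ⟨y, hy⟩ := hVne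
      exact (Set.disjoint_left.1 (hdU V h)) hy (hVU hy)
    have hWF' : W ∉ insert V F' := by
      rintro (h | h)
      · obtain ⟨y, hy⟩ := hWne
        exact (Set.disjoint_left.1 hWV) hy (by rw [← h]; exact hy)
      · obtain ⟨y, hy⟩ := hWne
        exact (Set.disjoint_left.1 (hdU W h)) hy hy.1
    have hFam : IsFam p (insert W (insert V F')) := by
      refine ⟨?_, ?_, ?_⟩
      · rintro T (rfl | rfl | hT)
        · exact hWI
        · exact hV
        · exact hF.inv T hT.1
      · rintro T (rfl | rfl | hT)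
        · exact hWne
        · exact hVne
        · exact hF.ne T hT.1
      · refine (pairwiseDisjoint_insert_of_notMem hWF').2 ⟨(pairwiseDisjoint_insert_of_notMem
          hVF').2 ⟨hF.dis.subset sdiff_subset, fun T hT => ?_⟩, ?_⟩
        · exact ((hdU T hT).mono_right hVU).symm
        · rintro T (rfl | hT)
          · exact hWV
          · exact ((hdU T hT).mono_right inter_subset_left).symm
    have h1 := hmax _ hFam
    rw [ncard_insert_of_notMem hWF' (hF'fin.insert V), ncard_insert_of_notMem hVF' hF'fin] at h1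
    have h2 : F'.ncard + 1 = F.ncard := ncard_sdiff_singleton_add_one hU hfin
    omega

end Pool.Agent.U106.OI
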