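import Pool.Agent.U106.OI.Fin

set_option autoImplicit false

/-!
Billiards in convex polygons: limits of the slices of invariant functions.
-/

namespace Pool.Agent.U106.OI

open Complex Set MeasureTheory Filter Topology Pool.Agent.W780.PG Pool.Agent.W780.BB
  Pool.Agent.TH103.BL Pool.Agent.N557.BP Pool.Agent.U106.BI

open scoped Real ComplexConjugate

variable {n : ℕ} {p : Fin (n + 3) → ℂ}

/-- The slice in the direction `θ` has, up to null sets, the limit `l` at the vertex `p i`, from the side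
`σ` (`1`: left, `-1`: right) of the line through `p i` in the direction `θ`. -/
def LimBeside (p : Fin (n + 3) → ℂ) (f : ℂ × ℝ → ℝ) (i : Fin (n + 3)) (σ θ l : ℝ) : Prop :=
  ∀ η : ℝ, 0 < η → ∃ r : ℝ, 0 < r ∧
    ∀ᵐ z : ℂ, z ∈ region p → ‖z - p i‖ < r → 0 < σ * sd p i (z, θ) → |f (z, θ) - l| ≤ η

/-- the rational intervals -/
def RC (q : ℚ) (k : ℕ) : Set ℝ := Metric.closedBall (q : ℝ) (1 / ((k : ℝ) + 1))

theorem rc_meas (q : ℚ) (k : ℕ) : MeasurableSet (RC q k) := Metric.isClosed_closedBall.measurableSet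

theorem mem_rc {q : ℚ} {k : ℕ} {x : ℝ} : x ∈ RC q k ↔ |x - q| ≤ 1 / ((k : ℝ) + 1) := by
  unfold RC
  rw [Metric.mem_closedBall, Real.dist_eq]

theorem fu_mono {f : ℂ × ℝ → ℝ} {C D : Set ℝ} (h : C ⊆ D) (i : Fin (n + 3)) :
    FU p f C i ⊆ FU p f D i := by
  intro θ hθ
  rw [fu_iff] at hθ ⊢
  obtain ⟨r, hr, hae⟩ := hθ
  exact ⟨r, hr, by filter_upwards [hae] with z hz h1 h2 using h (hz h1 h2)⟩

theorem fu_inter {f : ℂ × ℝ → ℝ} (hp : IsConvexPolygon p) {C D : Set ℝ} {i : Fin (n + 3)} {θ : ℝ}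
    (h1 : θ ∈ FU p f C i) (h2 : θ ∈ FU p f D i) : (C ∩ D).Nonempty := by
  rw [fu_iff] at h1 h2
  obtain ⟨r1, hr1, ha⟩ := h1
  obtain ⟨r2, hr2, hb⟩ := h2
  obtain ⟨z0, hz0, hz1⟩ := near_vertex hp i (lt_min hr1 hr2)
  have hev : ∀ᶠ z in 𝓝 z0, z ∈ reg p ∧ ‖z - p i‖ < min r1 r2 := by
    have c1 : ∀ᶠ z in 𝓝 z0, z ∈ reg p := (reg_open hp).mem_nhds hz0
    have c2 : ∀ᶠ z in 𝓝 z0, ‖z - p i‖ < min r1 r2 := by
      have : Continuous fun z : ℂ => ‖z - p i‖ := by fun_prop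
      exact (this.tendsto z0).eventually_lt_const hz1
    exact c1.and c2
  obtain ⟨z, ⟨ha', hb'⟩, hz2, hz3⟩ :=
    (Measure.dense_of_ae (ha.and hb)).inter_nhds_nonempty hev
  exact ⟨f (z, θ), ha' hz2 (hz3.trans_le (min_le_left _ _)),
    hb' hz2 (hz3.trans_le (min_le_right _ _))⟩

/-- At every vertex: the limits exist for almost every direction, and are equal to a constant, or small
intervals never contain all values near the vertex. -/
theorem vertex_alt (hp : IsConvexPolygon p) (hirr : ∀ i, Irrational (ang p i / π))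
    {f : ℂ × ℝ → ℝ} (hf : Measurable f) (hI : IsInvariantFun p f) (i : Fin (n + 3)) :
    (∃ c : ℝ, ∀ᵐ θ : ℝ, LimTo p f (p i) θ c) ∨
    ∃ k : ℕ, ∀ q : ℚ, ∀ᵐ θ : ℝ, θ ∉ FU p f (RC q k) i := by
  have hrr := region_eq hp
  by_cases h : ∃ k : ℕ, ∀ q : ℚ, ∀ᵐ θ : ℝ, θ ∉ FU p f (RC q k) i
  · exact Or.inr h
  left
  push Not at h
  have h1 : ∀ k : ℕ, ∃ q : ℚ, ∀ᵐ θ : ℝ, θ ∈ FU p f (RC q k) i := by
    intro k
    obtain ⟨q, hq⟩ := h k
    refine ⟨q, ?_⟩
    rcases dich hp hf hI (rc_meas q k) (hirr i) with h2 | h2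
    · exfalso
      have h3 := measure_eq_zero_iff_ae_notMem.1 h2
      exact hq h3
    · exact h2
  choose q hq using h1
  have hdist : ∀ k l : ℕ, |(q k : ℝ) - q l| ≤ 1 / ((k : ℝ) + 1) + 1 / ((l : ℝ) + 1) := by
    intro k l
    obtain ⟨θ, h2, h3⟩ := ((hq k).and (hq l)).exists
    obtain ⟨x, hx1, hx2⟩ := fu_inter hp h2 h3
    rw [mem_rc] at hx1 hx2
    have e : (q k : ℝ) - q l = (x - q l) - (x - q k) := by ring
    rw [e]
    refine (abs_sub _ _).trans ?_
    linarith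
  have hone : Tendsto (fun k : ℕ => 1 / ((k : ℝ) + 1)) atTop (𝓝 0) :=
    tendsto_one_div_add_atTop_nhds_zero_nat
  have hcau : CauchySeq fun k => (q k : ℝ) := by
    rw [Metric.cauchySeq_iff]
    intro ε hε
    obtain ⟨N, hN⟩ := exists_nat_one_div_lt (half_pos hε)
    refine ⟨N, fun k hk l hl => ?_⟩
    rw [Real.dist_eq]
    have h2 : ∀ m : ℕ, N ≤ m → 1 / ((m : ℝ) + 1) ≤ 1 / ((N : ℝ) + 1) := by
      intro m hm
      apply one_div_le_one_div_of_le (by positivity)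
      have : (N : ℝ) ≤ m := by exact_mod_cast hm
      linarith
    have := hdist k l
    have := h2 k hk
    have := h2 l hl
    linarith
  obtain ⟨c, hc⟩ := cauchySeq_tendsto_of_complete hcau
  have hcq : ∀ k, |c - q k| ≤ 1 / ((k : ℝ) + 1) := by
    intro k
    have h2 : Tendsto (fun l => |(q l : ℝ) - q k|) atTop (𝓝 |c - q k|) :=
      ((hc.sub_const _).abs)
    have h3 : Tendsto (fun l : ℕ => 1 / ((l : ℝ) + 1) + 1 / ((k : ℝ) + 1)) atTop
        (𝓝 (0 + 1 / ((k : ℝ) + 1))) := hone.add_const _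
    rw [zero_add] at h3
    exact le_of_tendsto_of_tendsto' h2 h3 fun l => hdist l k
  refine ⟨c, ?_⟩
  filter_upwards [ae_all_iff.2 hq] with θ hθ η hη
  obtain ⟨k, hk⟩ := exists_nat_one_div_lt (half_pos hη)
  have h2 := hθ k
  rw [fu_iff] at h2
  obtain ⟨r, hr, hae⟩ := h2
  refine ⟨r, hr, ?_⟩
  filter_upwards [hae] with z hz h3 h4
  have h5 := mem_rc.1 (hz (by rw [← hrr]; exact h3) h4)
  have h6 := hcq k
  have e : f (z, θ) - c = (f (z, θ) - q k) - (c - q k) := by ring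
  rw [e]
  refine (abs_sub _ _).trans ?_
  linarith

/-- no one-sided limits in the second case -/
theorem no_beside (hp : IsConvexPolygon p) {f : ℂ × ℝ → ℝ} (hf : Measurable f)
    (hI : IsInvariantFun p f) {i : Fin (n + 3)} {k : ℕ}
    (hk : ∀ q : ℚ, ∀ᵐ θ : ℝ, θ ∉ FU p f (RC q k) i) :
    ∀ᵐ θ : ℝ, (∃ s : ℝ, p i + s • dir θ ∈ region p) → ∀ l : ℝ,
      ¬ LimBeside p f i 1 θ l ∧ ¬ LimBeside p f i (-1) θ l := by
  have hrr := region_eq hp
  have h1 := ae_all_iff.2 hk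
  have o1 := ae_all_iff.2 fun q : ℚ => two_out hp hf hI (rc_meas q k) i (σ := 1) (Or.inl rfl)
  have o2 := ae_all_iff.2 fun q : ℚ => two_out hp hf hI (rc_meas q k) i (σ := -1) (Or.inr rfl)
  have q1 := ae_all_iff.2 fun q : ℚ => two_in hp hf hI (rc_meas q k) i (σ := 1) (Or.inl rfl)
  have q2 := ae_all_iff.2 fun q : ℚ => two_in hp hf hI (rc_meas q k) i (σ := -1) (Or.inr rfl)
  filter_upwards [h1, o1, o2, q1, q2] with θ g o1 o2 q1 q2 ⟨s, hs⟩ l
  rw [hrr] at hs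
  have e0 : sf p i (p i) = 0 := sf_self_left i
  have e1 : sf p (i - 1) (p i) = 0 := sf_self_right i
  have a1 : 0 < sf p i (p i + s • dir θ) := hs i
  have a2 : 0 < sf p (i - 1) (p i + s • dir θ) := hs (i - 1)
  rw [sf_ray, e0, zero_add] at a1
  rw [sf_ray, e1, zero_add] at a2
  have hst : ∀ σ : ℝ, (σ = 1 ∨ σ = -1) → LimBeside p f i σ θ l →
      ∃ q : ℚ, ∃ r' : ℝ, 0 < r' ∧ θ ∈ SC p f (RC q k) i σ r' := by
    intro σ hσ hl
    have hpos : (0 : ℝ) < 1 / (2 * ((k : ℝ) + 1)) := by positivity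
    obtain ⟨q, hq1, hq2⟩ := exists_rat_btwn (show l < l + 1 / (2 * ((k : ℝ) + 1)) by linarith)
    obtain ⟨r, hr, hae⟩ := hl _ hpos
    refine ⟨q, strip1 hp hI hσ hr hs ?_⟩
    filter_upwards [hae] with z hz h1 h2 h3
    have h4 := hz (by rw [hrr]; exact h1) h2 h3
    rw [mem_rc]
    have e : f (z, θ) - q = (f (z, θ) - l) - (q - l) := by ring
    have h5 : |(q : ℝ) - l| ≤ 1 / (2 * ((k : ℝ) + 1)) := by
      rw [abs_of_pos (by linarith)]; linarith
    rw [e]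
    refine (abs_sub _ _).trans ?_
    have h6 : 1 / (2 * ((k : ℝ) + 1)) + 1 / (2 * ((k : ℝ) + 1)) = 1 / ((k : ℝ) + 1) := by
      field_simp
      norm_num
    linarith
  rcases lt_trichotomy s 0 with h1 | h1 | h1
  · have b1 : sl p i θ < 0 := by
      by_contra hc
      exact absurd a1 (not_lt.2 (mul_nonpos_of_nonpos_of_nonneg h1.le (not_lt.1 hc)))
    have b2 : sl p (i - 1) θ < 0 := by
      by_contra hc
      exact absurd a2 (not_lt.2 (mul_nonpos_of_nonpos_of_nonneg h1.le (not_lt.1 hc)))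
    constructor
    · intro hb
      obtain ⟨q, hq⟩ := hst 1 (Or.inl rfl) hb
      exact g q (q1 q b1 b2 hq)
    · intro hb
      obtain ⟨q, hq⟩ := hst (-1) (Or.inr rfl) hb
      exact g q (q2 q b1 b2 hq)
  · rw [h1, zero_mul] at a1
    exact absurd a1 (lt_irrefl _)
  · have b1 : 0 < sl p i θ := (mul_pos_iff_of_pos_left h1).1 a1
    have b2 : 0 < sl p (i - 1) θ := (mul_pos_iff_of_pos_left h1).1 a2
    constructor
    · intro hb
      obtain ⟨q, hq⟩ := hst 1 (Or.inl rfl) hb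
      exact g q (o1 q b1 b2 hq)
    · intro hb
      obtain ⟨q, hq⟩ := hst (-1) (Or.inr rfl) hb
      exact g q (o2 q b1 b2 hq)

/-- the limits at the vertices determine all limits -/
theorem all_values (hp : IsConvexPolygon p) (hirr : ∀ i, Irrational (ang p i / π))
    {f : ℂ × ℝ → ℝ} (hf : Measurable f) (hI : IsInvariantFun p f) {J : Set (Fin (n + 3))}
    {c : Fin (n + 3) → ℝ} (hJ : ∀ i ∈ J, ∀ᵐ θ : ℝ, LimTo p f (p i) θ (c i))
    (hJc : ∀ i ∉ J, ∃ k : ℕ, ∀ q : ℚ, ∀ᵐ θ : ℝ, θ ∉ FU p f (RC q k) i) :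
    ∀ᵐ θ : ℝ, ∀ z ∈ region p, ∀ l, LimTo p f z θ l → ∃ i ∈ J, l = c i := by
  have hrr := region_eq hp
  have hcount : ∀ᵐ θ : ℝ, ∀ (q : ℚ) (k : ℕ), (∀ i, ∀ᵐ φ : ℝ, φ ∉ FU p f (RC q k) i) →
      ¬ Op p f (RC q k) θ := by
    rw [ae_all_iff]
    intro q
    rw [ae_all_iff]
    intro k
    by_cases h : ∀ i, ∀ᵐ φ : ℝ, φ ∉ FU p f (RC q k) i
    · by_cases h2 : ∀ᵐ θ : ℝ, ¬ Op p f (RC q k) θ
      · filter_upwards [h2] with θ hθ _ using hθ
      · exfalso
        obtain ⟨i, hi⟩ := vertex_of_open hp hirr hf hI (rc_meas q k) h2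
        obtain ⟨θ, h3, h4⟩ := (hi.and (h i)).exists
        exact h4 h3
    · exact Eventually.of_forall fun θ h3 => absurd h3 h
  filter_upwards [hcount] with θ hθ z hz l hl
  by_contra hcon
  push Not at hcon
  -- a scale which is good for all vertices
  have hk : ∃ k : ℕ, (∀ i ∈ J, 2 * (1 / ((k : ℝ) + 1)) < |l - c i|) ∧
      ∀ i ∉ J, ∀ q : ℚ, ∀ᵐ φ : ℝ, φ ∉ FU p f (RC q k) i := by
    have hone : Tendsto (fun k : ℕ => 2 * (1 / ((k : ℝ) + 1))) atTop (𝓝 (2 * 0)) :=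
      (tendsto_one_div_add_atTop_nhds_zero_nat (𝕜 := ℝ)).const_mul 2
    rw [mul_zero] at hone
    have h1 : ∀ᶠ k : ℕ in atTop, ∀ i, i ∈ J → 2 * (1 / ((k : ℝ) + 1)) < |l - c i| := by
      rw [eventually_all]
      intro i
      by_cases hi : i ∈ J
      · filter_upwards [hone.eventually_lt_const (abs_pos.2 (sub_ne_zero.2 (hcon i hi)))]
          with k hk _ using hk
      · exact Eventually.of_forall fun _ h => absurd h hi
    have h2 : ∀ᶠ k : ℕ in atTop, ∀ i, i ∉ J → ∀ q : ℚ, ∀ᵐ φ : ℝ, φ ∉ FU p f (RC q k) i := by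
      rw [eventually_all]
      intro i
      by_cases hi : i ∉ J
      · obtain ⟨k0, hk0⟩ := hJc i hi
        filter_upwards [eventually_ge_atTop k0] with k hk _ q
        filter_upwards [hk0 q] with φ hφ h3
        refine hφ (fu_mono ?_ i h3)
        refine Metric.closedBall_subset_closedBall ?_
        apply one_div_le_one_div_of_le (by positivity)
        have : (k0 : ℝ) ≤ k := by exact_mod_cast hk
        linarith
      · exact Eventually.of_forall fun _ h => absurd h hi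
    obtain ⟨k, h3, h4⟩ := (h1.and h2).exists
    exact ⟨k, h3, h4⟩
  obtain ⟨k, hk1, hk2⟩ := hk
  have hpos : (0 : ℝ) < 1 / (2 * ((k : ℝ) + 1)) := by positivity
  have hhalf : 1 / (2 * ((k : ℝ) + 1)) + 1 / (2 * ((k : ℝ) + 1)) = 1 / ((k : ℝ) + 1) := by
    field_simp
    norm_num
  obtain ⟨q, hq1, hq2⟩ := exists_rat_btwn (show l < l + 1 / (2 * ((k : ℝ) + 1)) by linarith)
  have hlq : |(q : ℝ) - l| ≤ 1 / (2 * ((k : ℝ) + 1)) := by
    rw [abs_of_pos (by linarith)]; linarith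
  refine hθ q k (fun i => ?_) ?_
  · by_cases hi : i ∈ J
    · filter_upwards [hJ i hi] with φ hφ h3
      obtain ⟨r, hr, hae⟩ := hφ (1 / (2 * ((k : ℝ) + 1))) hpos
      have h4 : φ ∈ FU p f (Metric.closedBall (c i) (1 / (2 * ((k : ℝ) + 1)))) i := by
        rw [fu_iff]
        refine ⟨r, hr, ?_⟩
        filter_upwards [hae] with y hy h5 h6
        rw [Metric.mem_closedBall, Real.dist_eq]
        exact hy (by rw [hrr]; exact h5) h6
      obtain ⟨x, hx1, hx2⟩ := fu_inter hp h3 h4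
      rw [mem_rc] at hx1
      rw [Metric.mem_closedBall, Real.dist_eq] at hx2
      have h7 := hk1 i hi
      have e : l - c i = (x - c i) - (x - q) - (q - l) := by ring
      have h8 : |l - c i| ≤ |x - c i| + |x - q| + |(q : ℝ) - l| := by
        rw [e]
        exact (abs_sub _ _).trans (by linarith [abs_sub (x - c i) (x - q)])
      linarith
    · exact hk2 i hi q
  · obtain ⟨r, hr, hae⟩ := hl _ hpos
    refine ⟨z, by rw [← hrr]; exact hz, r, hr, ?_⟩
    filter_upwards [hae] with y hy h5 h6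
    have h7 := hy (by rw [hrr]; exact h5) h6
    rw [mem_rc]
    have e : f (y, θ) - q = (f (y, θ) - l) - (q - l) := by ring
    rw [e]
    refine (abs_sub _ _).trans ?_
    linarith

/-- Slices with limits almost everywhere. -/
theorem values2 (hp : IsConvexPolygon p) {f : ℂ × ℝ → ℝ} (hf : Measurable f)
    {J : Set (Fin (n + 3))} {c : Fin (n + 3) → ℝ}
    (hJ : ∀ i ∈ J, ∀ᵐ θ : ℝ, LimTo p f (p i) θ (c i))
    (hl : ∀ᵐ θ : ℝ, ∀ z ∈ region p, ∀ l, LimTo p f z θ l → ∃ i ∈ J, l = c i)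
    (hA : ∀ᵐ θ : ℝ, ∀ᵐ z : ℂ, z ∈ region p → LimAt p f z θ) :
    (∀ᵐ x : ℂ × ℝ, x.1 ∈ region p → ∃ i ∈ J, f x = c i) ∧
      ∀ᵐ θ : ℝ, ∀ i ∈ J, ∃ r : ℝ, 0 < r ∧
        ∀ᵐ z : ℂ, z ∈ region p → ‖z - p i‖ < r → f (z, θ) = c i := by
  have hrr := region_eq hp
  have key : ∀ᵐ θ : ℝ, ∀ᵐ z : ℂ, z ∈ region p → ∃ i ∈ J, f (z, θ) = c i := by
    filter_upwards [hl, hA] with θ h1 h2
    have hnull : ∀ m : ℕ, volume {z : ℂ | z ∈ reg p ∧ LimAt p f z θ ∧
        ∀ j ∈ J, 1 / ((m : ℝ) + 1) < |f (z, θ) - c j|} = 0 := by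
      intro m
      refine measure_null_of_locally_null _ fun z hz => ?_
      obtain ⟨hzr, ⟨l, hl⟩, -⟩ := hz
      obtain ⟨j, hj0, hj⟩ := h1 z (by rw [hrr]; exact hzr) l hl
      obtain ⟨r, hr, hae⟩ := hl (1 / ((m : ℝ) + 1)) (by positivity)
      refine ⟨Metric.ball z r ∩ {z : ℂ | z ∈ reg p ∧ LimAt p f z θ ∧
          ∀ j ∈ J, 1 / ((m : ℝ) + 1) < |f (z, θ) - c j|},
        inter_mem (mem_nhdsWithin_of_mem_nhds (Metric.ball_mem_nhds z hr)) self_mem_nhdsWithin, ?_⟩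
      rw [measure_eq_zero_iff_ae_notMem]
      filter_upwards [hae] with y hy hmem
      obtain ⟨h3, h4, -, h5⟩ := hmem
      rw [mem_ball_iff_norm] at h3
      have a1 := hy (by rw [hrr]; exact h4) h3
      have a2 := h5 j hj0
      rw [hj] at a1
      linarith
    have hall := ae_all_iff.2 fun m => measure_eq_zero_iff_ae_notMem.1 (hnull m)
    filter_upwards [hall, h2] with z h3 h4 hzr
    by_contra hcon
    push Not at hcon
    have hpos : ∀ᶠ m : ℕ in atTop, ∀ j, j ∈ J → 1 / ((m : ℝ) + 1) < |f (z, θ) - c j| := by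
      rw [eventually_all]
      intro j
      by_cases hj : j ∈ J
      · filter_upwards [(tendsto_one_div_add_atTop_nhds_zero_nat (𝕜 := ℝ)).eventually_lt_const
          (abs_pos.2 (sub_ne_zero.2 (hcon j hj)))] with m hm _ using hm
      · exact Eventually.of_forall fun _ h => absurd h hj
    obtain ⟨m, hm⟩ := hpos.exists
    exact h3 m ⟨by rw [← hrr]; exact hzr, h4 hzr, hm⟩
  refine ⟨?_, ?_⟩
  · have hm : MeasurableSet {x : ℂ × ℝ | x.1 ∈ region p ∧ ∀ i ∈ J, f x ≠ c i} := by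
      refine MeasurableSet.inter ?_ ?_
      · rw [hrr]
        exact measurable_fst (reg_open hp).measurableSet
      · have e : {x : ℂ × ℝ | ∀ i ∈ J, f x ≠ c i} = ⋂ i ∈ J, {x | f x ≠ c i} := by
          ext x; simp
        show MeasurableSet {x : ℂ × ℝ | ∀ i ∈ J, f x ≠ c i}
        rw [e]
        exact MeasurableSet.biInter (Set.to_countable J)
          fun i _ => (hf (measurableSet_singleton (c i))).compl
    have h0 : volume {x : ℂ × ℝ | x.1 ∈ region p ∧ ∀ i ∈ J, f x ≠ c i} = 0 := by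
      rw [Measure.volume_eq_prod, Measure.prod_apply_symm hm]
      have h1 : (fun θ : ℝ => volume ((fun z : ℂ => (z, θ)) ⁻¹'
          {x : ℂ × ℝ | x.1 ∈ region p ∧ ∀ i ∈ J, f x ≠ c i})) =ᵐ[volume] fun _ => 0 := by
        filter_upwards [key] with θ hθ
        refine measure_eq_zero_iff_ae_notMem.2 ?_
        filter_upwards [hθ] with z hz
        rintro ⟨h1, h2⟩
        obtain ⟨i, hi0, hi⟩ := hz h1
        exact h2 i hi0 hi
      rw [lintegral_congr_ae h1, lintegral_zero]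
    filter_upwards [measure_eq_zero_iff_ae_notMem.1 h0] with x hx hxr
    by_contra hcon
    push Not at hcon
    exact hx ⟨hxr, hcon⟩
  · have hJ' : ∀ᵐ θ : ℝ, ∀ i, i ∈ J → LimTo p f (p i) θ (c i) := by
      rw [ae_all_iff]
      intro i
      by_cases hi : i ∈ J
      · filter_upwards [hJ i hi] with θ hθ _ using hθ
      · exact Eventually.of_forall fun _ h => absurd h hi
    filter_upwards [key, hJ'] with θ h1 h2 i hi
    obtain ⟨η, hη, hη2⟩ : ∃ η : ℝ, 0 < η ∧ ∀ j, c j ≠ c i → η < |c j - c i| := by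
      have h3 : ∀ᶠ η in 𝓝[>] (0 : ℝ), ∀ j, c j ≠ c i → η < |c j - c i| := by
        rw [eventually_all]
        intro j
        by_cases hj : c j = c i
        · exact Eventually.of_forall fun _ h => absurd hj h
        · filter_upwards [Ioo_mem_nhdsGT (abs_pos.2 (sub_ne_zero.2 hj))] with η hη _ using hη.2
      obtain ⟨η, h4, h5⟩ := (h3.and self_mem_nhdsWithin).exists
      exact ⟨η, h5, h4⟩
    obtain ⟨r, hr, hae⟩ := h2 i hi η hη
    refine ⟨r, hr, ?_⟩
    filter_upwards [h1, hae] with z h3 h4 h5 h6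
    obtain ⟨j, -, hj⟩ := h3 h5
    have h7 := h4 h5 h6
    rw [hj] at h7 ⊢
    by_contra hne
    have := hη2 j hne
    linarith

end Pool.Agent.U106.OI
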