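import Pool.Agent.U106.OI.Cov

set_option autoImplicit false

/-!
Billiards in convex polygons: the directions for which an invariant function has its values in a set
in a one-sided strip beside a vertex, or near the vertex.
-/

namespace Pool.Agent.U106.OI

open Complex Set MeasureTheory Filter Topology Pool.Agent.W780.PG Pool.Agent.W780.BB
  Pool.Agent.TH103.BL Pool.Agent.N557.BP Pool.Agent.U106.BI

open scoped Real ComplexConjugate

variable {n : ℕ} {p : Fin (n + 3) → ℂ}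

/-- the states in the strip of width `r` beside the line through `p j`, with values outside of `C` -/
def BS (p : Fin (n + 3) → ℂ) (f : ℂ × ℝ → ℝ) (C : Set ℝ) (j : Fin (n + 3)) (σ r : ℝ) :
    Set (ℂ × ℝ) := {x | x.1 ∈ reg p ∧ 0 < σ * sd p j x ∧ σ * sd p j x < r ∧ f x ∉ C}

/-- the directions for which the function has its values in `C` in the strip -/
def SC (p : Fin (n + 3) → ℂ) (f : ℂ × ℝ → ℝ) (C : Set ℝ) (j : Fin (n + 3)) (σ r : ℝ) : Set ℝ :=
  {θ | volume ((fun z : ℂ => (z, θ)) ⁻¹' BS p f C j σ r) = 0}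

/-- the states near `p i` with values outside of `C` -/
def BF (p : Fin (n + 3) → ℂ) (f : ℂ × ℝ → ℝ) (C : Set ℝ) (i : Fin (n + 3)) (m : ℕ) :
    Set (ℂ × ℝ) := {x | x.1 ∈ reg p ∧ ‖x.1 - p i‖ < 1 / ((m : ℝ) + 1) ∧ f x ∉ C}

/-- the directions for which the function has its values in `C` near `p i` -/
def FU (p : Fin (n + 3) → ℂ) (f : ℂ × ℝ → ℝ) (C : Set ℝ) (i : Fin (n + 3)) : Set ℝ :=
  {θ | ∃ m : ℕ, volume ((fun z : ℂ => (z, θ)) ⁻¹' BF p f C i m) = 0}

theorem fu_iff {f : ℂ × ℝ → ℝ} {C : Set ℝ} {i : Fin (n + 3)} {θ : ℝ} :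
    θ ∈ FU p f C i ↔ ∃ r : ℝ, 0 < r ∧
      ∀ᵐ z : ℂ, z ∈ reg p → ‖z - p i‖ < r → f (z, θ) ∈ C := by
  constructor
  · rintro ⟨m, hm⟩
    refine ⟨1 / ((m : ℝ) + 1), by positivity, ?_⟩
    filter_upwards [measure_eq_zero_iff_ae_notMem.1 hm] with z hz h1 h2
    by_contra h3
    exact hz ⟨h1, h2, h3⟩
  · rintro ⟨r, hr, h⟩
    obtain ⟨m, hm⟩ := exists_nat_one_div_lt hr
    refine ⟨m, measure_eq_zero_iff_ae_notMem.2 ?_⟩
    filter_upwards [h] with z hz
    rintro ⟨h1, h2, h3⟩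
    exact h3 (hz h1 (lt_trans h2 hm))

theorem sc_iff {f : ℂ × ℝ → ℝ} {C : Set ℝ} {j : Fin (n + 3)} {σ r θ : ℝ} :
    θ ∈ SC p f C j σ r ↔ ∀ᵐ z : ℂ, z ∈ reg p → 0 < σ * sd p j (z, θ) → σ * sd p j (z, θ) < r →
      f (z, θ) ∈ C := by
  unfold SC
  rw [mem_ofPred_eq, measure_eq_zero_iff_ae_notMem]
  constructor
  · intro h
    filter_upwards [h] with z hz h1 h2 h3
    by_contra h4
    exact hz ⟨h1, h2, h3, h4⟩
  · intro h
    filter_upwards [h] with z hz
    rintro ⟨h1, h2, h3, h4⟩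
    exact h4 (hz h1 h2 h3)

theorem bs_meas (hp : IsConvexPolygon p) {f : ℂ × ℝ → ℝ} (hf : Measurable f) {C : Set ℝ}
    (hC : MeasurableSet C) (j : Fin (n + 3)) (σ r : ℝ) : MeasurableSet (BS p f C j σ r) := by
  have h1 : MeasurableSet {x : ℂ × ℝ | x.1 ∈ reg p} :=
    measurable_fst (reg_open hp).measurableSet
  have h2 : MeasurableSet {x : ℂ × ℝ | 0 < σ * sd p j x} :=
    measurableSet_lt measurable_const ((sd_cont p j).measurable.const_mul σ)
  have h3 : MeasurableSet {x : ℂ × ℝ | σ * sd p j x < r} :=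
    measurableSet_lt ((sd_cont p j).measurable.const_mul σ) measurable_const
  have h4 : MeasurableSet {x : ℂ × ℝ | f x ∉ C} := (hf hC).compl
  exact h1.inter (h2.inter (h3.inter h4))

theorem sc_meas (hp : IsConvexPolygon p) {f : ℂ × ℝ → ℝ} (hf : Measurable f) {C : Set ℝ}
    (hC : MeasurableSet C) (j : Fin (n + 3)) (σ r : ℝ) : MeasurableSet (SC p f C j σ r) :=
  measurable_measure_prodMk_right (bs_meas hp hf hC j σ r) (measurableSet_singleton 0)

theorem bf_meas (hp : IsConvexPolygon p) {f : ℂ × ℝ → ℝ} (hf : Measurable f) {C : Set ℝ}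
    (hC : MeasurableSet C) (i : Fin (n + 3)) (m : ℕ) : MeasurableSet (BF p f C i m) := by
  have h1 : MeasurableSet {x : ℂ × ℝ | x.1 ∈ reg p} :=
    measurable_fst (reg_open hp).measurableSet
  have h2 : MeasurableSet {x : ℂ × ℝ | ‖x.1 - p i‖ < 1 / ((m : ℝ) + 1)} :=
    measurableSet_lt (measurable_fst.sub_const _).norm measurable_const
  have h4 : MeasurableSet {x : ℂ × ℝ | f x ∉ C} := (hf hC).compl
  exact h1.inter (h2.inter h4)

theorem fu_meas (hp : IsConvexPolygon p) {f : ℂ × ℝ → ℝ} (hf : Measurable f) {C : Set ℝ}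
    (hC : MeasurableSet C) (i : Fin (n + 3)) : MeasurableSet (FU p f C i) := by
  have h1 : FU p f C i = ⋃ m : ℕ, {θ | volume ((fun z : ℂ => (z, θ)) ⁻¹' BF p f C i m) = 0} := by
    ext θ
    simp only [FU, mem_iUnion]
    rfl
  rw [h1]
  exact MeasurableSet.iUnion fun m =>
    measurable_measure_prodMk_right (bf_meas hp hf hC i m) (measurableSet_singleton 0)

theorem sc_per {f : ℂ × ℝ → ℝ} (hI : IsInvariantFun p f) (C : Set ℝ) (j : Fin (n + 3))
    (σ r θ : ℝ) : θ + 2 * π ∈ SC p f C j σ r ↔ θ ∈ SC p f C j σ r := by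
  rw [sc_iff, sc_iff]
  simp only [hI.periodic, sd_per]

theorem fu_per {f : ℂ × ℝ → ℝ} (hI : IsInvariantFun p f) (C : Set ℝ) (i : Fin (n + 3))
    (θ : ℝ) : θ + 2 * π ∈ FU p f C i ↔ θ ∈ FU p f C i := by
  rw [fu_iff, fu_iff]
  simp only [hI.periodic]

theorem dir_eq_iff {φ ψ : ℝ} (h : dir φ = dir ψ) : ∃ k : ℤ, φ = ψ + k * (2 * π) := by
  unfold dir at h
  obtain ⟨k, hk⟩ := Complex.exp_eq_exp_iff_exists_int.1 h
  refine ⟨k, ?_⟩
  have h1 : ((φ : ℂ) - (ψ + k * (2 * π))) * I = 0 := by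
    linear_combination hk
  rcases mul_eq_zero.1 h1 with h2 | h2
  · have h3 : ((φ - (ψ + k * (2 * π)) : ℝ) : ℂ) = 0 := by
      push_cast
      exact h2
    have := ofReal_eq_zero.1 h3
    linarith
  · exact absurd h2 I_ne_zero

theorem sc_dir {f : ℂ × ℝ → ℝ} (hI : IsInvariantFun p f) {C : Set ℝ} {j : Fin (n + 3)}
    {σ r φ ψ : ℝ} (h : dir φ = dir ψ) (hψ : ψ ∈ SC p f C j σ r) : φ ∈ SC p f C j σ r := by
  obtain ⟨k, rfl⟩ := dir_eq_iff h
  exact (per_int (fun x => sc_per hI C j σ r x) k ψ).2 hψ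

theorem sc_mono {f : ℂ × ℝ → ℝ} {C : Set ℝ} {j : Fin (n + 3)} {σ r r' : ℝ} (h : r' ≤ r) :
    SC p f C j σ r ⊆ SC p f C j σ r' := by
  intro θ hθ
  rw [sc_iff] at hθ ⊢
  filter_upwards [hθ] with z hz h1 h2 h3
  exact hz h1 h2 (lt_of_lt_of_le h3 h)

/-- Transport of the values near a point of the orbit back to the starting vertex. -/
theorem transport1 (hp : IsConvexPolygon p) {f : ℂ × ℝ → ℝ} (hI : IsInvariantFun p f)
    {C : Set ℝ} {i j : Fin (n + 3)} {θ r σ : ℝ} {u : ℕ → Fin (n + 3)} {t : ℕ → ℝ} {K : ℕ}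
    (O : Orb p (p i) θ u t) (h1 : 0 < σ * vd p (p i) θ u K j) (h2 : σ * vd p (p i) θ u K j < r)
    (hS : angs p θ u K ∈ SC p f C j σ r) : θ ∈ FU p f C i := by
  have htp := tp_lt O K
  obtain ⟨s, hs1, hs2⟩ : ∃ s, tp t K < s ∧ s < t K := ⟨(tp t K + t K) / 2, by linarith, by linarith⟩
  set l := (List.range K).map u with hl
  have hch : Ch p l (p i) (p i + s • dir θ) := orb_ch hp O hs1 hs2
  have hc : Continuous fun z : ℂ => z + s • dir θ := by fun_prop
  have e1 : ∀ᶠ z in 𝓝 (p i), Ch p l z (z + s • dir θ) :=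
    ((Pool.Agent.W762.BB.open_it n p hp l).preimage (continuous_id.prodMk hc)).mem_nhds hch
  have hsd : Continuous fun z : ℂ => σ * sd p j (fd p l (z + s • dir θ, θ)) :=
    continuous_const.mul ((sd_cont p j).comp ((fd_cont hp l).comp (hc.prodMk continuous_const)))
  have hval : sd p j (fd p l (p i + s • dir θ, θ)) = vd p (p i) θ u K j := by
    rw [hl, fd_word hp]
    unfold vd sd
    simp only
    have h3 := Pool.Agent.N262.BP.conj_dir_mul (angs p θ u K)
    have h4 : conj (dir (angs p θ u K)) * (srcs p (p i) u K + s • dir (angs p θ u K) - p j) =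
        conj (dir (angs p θ u K)) * (srcs p (p i) u K - p j) + ((s : ℝ) : ℂ) := by
      rw [real_smul]
      linear_combination ((s : ℝ) : ℂ) * h3
    rw [h4, add_im, ofReal_im, add_zero]
  have e2 : ∀ᶠ z in 𝓝 (p i), 0 < σ * sd p j (fd p l (z + s • dir θ, θ)) :=
    (hsd.tendsto (p i)).eventually_const_lt (by rw [hval]; exact h1)
  have e3 : ∀ᶠ z in 𝓝 (p i), σ * sd p j (fd p l (z + s • dir θ, θ)) < r :=
    (hsd.tendsto (p i)).eventually_lt_const (by rw [hval]; exact h2)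
  obtain ⟨δ, hδ, hball⟩ := Metric.eventually_nhds_iff.1 (e1.and (e2.and e3))
  rw [fu_iff]
  refine ⟨δ, hδ, ?_⟩
  have hmp : MeasurePreserving (fun z : ℂ => fp p l (z + s • dir θ)) :=
    (Pool.Agent.N681.BP.mp_fp p l).comp (measurePreserving_add_right (volume : Measure ℂ) (s • dir θ))
  rw [sc_iff] at hS
  filter_upwards [hmp.quasiMeasurePreserving.ae hS] with z hz b1 b2
  obtain ⟨c1, c2, c3⟩ := hball (y := z) (by rw [dist_eq_norm]; exact b2)
  have hfd : fd p l (z + s • dir θ, θ) = (fp p l (z + s • dir θ), angs p θ u K) := by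
    have h3 := Pool.Agent.N681.BP.fd_eq p l (z + s • dir θ) θ
    have h4 : (fd p l (z + s • dir θ, θ)).2 = angs p θ u K := by rw [hl, fd_word hp]
    rw [h3] at h4 ⊢
    rw [← h4]
  rw [inv_fun hp hI b1 c1]
  rw [hfd] at c2 c3 ⊢
  exact hz (ch_mem l _ _ c1) c2 c3

end Pool.Agent.U106.OI
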