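import Pool.Agent.U106.OI.Sets

set_option autoImplicit false

/-!
Billiards in convex polygons: for almost every direction at a vertex, values in `C` on one side of the
line imply values in `C` near the vertex.
-/

namespace Pool.Agent.U106.OI

open Complex Set MeasureTheory Filter Topology Pool.Agent.W780.PG Pool.Agent.W780.BB
  Pool.Agent.TH103.BL Pool.Agent.N557.BP Pool.Agent.U106.BI

open scoped Real ComplexConjugate

variable {n : ℕ} {p : Fin (n + 3) → ℂ}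

/-- the directions at `p i` with the itinerary `l` and then the record `p j`, at a distance of the
order `2 ^ (-k)` -/
def Ec (p : Fin (n + 3) → ℂ) (i j : Fin (n + 3)) (σ τ : ℝ) (k : ℕ) (l : List (Fin (n + 3))) :
    Set ℝ :=
  {θ | τ = -((-1) ^ l.length * σ) ∧ 0 < sl p (i - 1) θ ∧
    (1 / 2 : ℝ) ^ (k + 1) < τ * vd p (p i) θ (wl l) l.length j ∧
    τ * vd p (p i) θ (wl l) l.length j ≤ (1 / 2 : ℝ) ^ k ∧
    Rec p i σ (τ * vd p (p i) θ (wl l) l.length j) l.length (wl l) θ}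

theorem rec_meas (i : Fin (n + 3)) (σ : ℝ) {v : ℝ → ℝ} (hv : Continuous v) (K : ℕ)
    (w : ℕ → Fin (n + 3)) : MeasurableSet {θ | Rec p i σ (v θ) K w θ} := by
  have e : {θ | Rec p i σ (v θ) K w θ} = {θ | 0 < sl p i θ} ∩ ⋂ m ∈ Finset.range K,
      ({θ | sl p (w m) (angs p θ w m) < 0} ∩
      {θ | vd p (p i) θ w m (w m) * vd p (p i) θ w m (w m + 1) < 0} ∩
      ({θ | 0 < (-1) ^ m * σ * vd p (p i) θ w m (w m)} ∪
        {θ | (-1) ^ m * σ * vd p (p i) θ w m (w m) ≤ -(v θ)}) ∩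
      ({θ | 0 < (-1) ^ m * σ * vd p (p i) θ w m (w m + 1)} ∪
        {θ | (-1) ^ m * σ * vd p (p i) θ w m (w m + 1) ≤ -(v θ)})) := by
    ext θ
    simp only [mem_ofPred_eq, mem_inter_iff, mem_iInter, Finset.mem_range, mem_union]
    constructor
    · intro H
      exact ⟨H.ent, fun m hm => ⟨⟨⟨H.ex m hm, H.op m hm⟩, H.wl m hm⟩, H.wr m hm⟩⟩
    · rintro ⟨h1, h2⟩
      exact ⟨h1, fun m hm => (h2 m hm).1.1.1, fun m hm => (h2 m hm).1.1.2,
        fun m hm => (h2 m hm).1.2, fun m hm => (h2 m hm).2⟩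
  rw [e]
  refine (measurableSet_lt measurable_const (sl_cont i).measurable).inter ?_
  refine Finset.measurableSet_biInter _ fun m _ => ?_
  have hc : ∀ q, Measurable fun θ => (-1) ^ m * σ * vd p (p i) θ w m q := fun q =>
    ((vd_cont (p := p) (p i) w m q).measurable.const_mul _)
  refine (((measurableSet_lt ((sl_cont _).comp (angs_cont w m)).measurable measurable_const).inter
    (measurableSet_lt ((vd_cont _ w m _).mul (vd_cont _ w m _)).measurable measurable_const)).inter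
    ((measurableSet_lt measurable_const (hc _)).union
      (measurableSet_le (hc _) hv.measurable.neg))).inter
    ((measurableSet_lt measurable_const (hc _)).union
      (measurableSet_le (hc _) hv.measurable.neg))

theorem ec_meas (i j : Fin (n + 3)) (σ τ : ℝ) (k : ℕ) (l : List (Fin (n + 3))) :
    MeasurableSet (Ec p i j σ τ k l) := by
  have hc : Continuous fun θ => τ * vd p (p i) θ (wl l) l.length j :=
    continuous_const.mul (vd_cont _ _ _ _)
  refine (MeasurableSet.const _).inter ((measurableSet_lt measurable_const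
    (sl_cont (i - 1)).measurable).inter ((measurableSet_lt measurable_const hc.measurable).inter
    ((measurableSet_le hc.measurable measurable_const).inter (rec_meas i σ hc _ _))))

theorem rec_per {i : Fin (n + 3)} {σ v : ℝ} {K : ℕ} {w : ℕ → Fin (n + 3)} {θ : ℝ} :
    Rec p i σ v K w (θ + 2 * π) ↔ Rec p i σ v K w θ := by
  have h0 : dir (θ + 2 * π) = dir θ := by
    have := dir_per θ 1
    rwa [Int.cast_one, one_mul] at this
  constructor
  · intro H
    refine ⟨?_, fun m hm => ?_, fun m hm => ?_, fun m hm => ?_, fun m hm => ?_⟩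
    · rw [← sl_dir h0]; exact H.ent
    · rw [← sl_dir (dir_angs_per θ w m)]; exact H.ex m hm
    · rw [← vd_per, ← vd_per (j := w m + 1)]; exact H.op m hm
    · rw [← vd_per]; exact H.wl m hm
    · rw [← vd_per]; exact H.wr m hm
  · intro H
    refine ⟨?_, fun m hm => ?_, fun m hm => ?_, fun m hm => ?_, fun m hm => ?_⟩
    · rw [sl_dir h0]; exact H.ent
    · rw [sl_dir (dir_angs_per θ w m)]; exact H.ex m hm
    · rw [vd_per, vd_per]; exact H.op m hm
    · rw [vd_per]; exact H.wl m hm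
    · rw [vd_per]; exact H.wr m hm

theorem ec_per (i j : Fin (n + 3)) (σ τ : ℝ) (k : ℕ) (l : List (Fin (n + 3))) (θ : ℝ) :
    θ + 2 * π ∈ Ec p i j σ τ k l ↔ θ ∈ Ec p i j σ τ k l := by
  have h0 : dir (θ + 2 * π) = dir θ := by
    have := dir_per θ 1
    rwa [Int.cast_one, one_mul] at this
  show (_ ∧ 0 < sl p (i - 1) (θ + 2 * π) ∧
    (1 / 2 : ℝ) ^ (k + 1) < τ * vd p (p i) (θ + 2 * π) (wl l) l.length j ∧
    τ * vd p (p i) (θ + 2 * π) (wl l) l.length j ≤ (1 / 2 : ℝ) ^ k ∧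
    Rec p i σ (τ * vd p (p i) (θ + 2 * π) (wl l) l.length j) l.length (wl l) (θ + 2 * π)) ↔ _
  rw [rec_per, vd_per, sl_dir h0]
  rfl

/-- the part of `Ec` in which the values are in `C` on the side `σ` but not near the vertex -/
def Ee (p : Fin (n + 3) → ℂ) (f : ℂ × ℝ → ℝ) (C : Set ℝ) (r : ℝ) (i j : Fin (n + 3)) (σ τ : ℝ)
    (k : ℕ) (l : List (Fin (n + 3))) : Set ℝ :=
  Ec p i j σ τ k l ∩ SC p f C i σ r ∩ (FU p f C i)ᶜ

theorem ee_meas (hp : IsConvexPolygon p) {f : ℂ × ℝ → ℝ} (hf : Measurable f) {C : Set ℝ}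
    (hC : MeasurableSet C) (r : ℝ) (i j : Fin (n + 3)) (σ τ : ℝ) (k : ℕ)
    (l : List (Fin (n + 3))) : MeasurableSet (Ee p f C r i j σ τ k l) :=
  ((ec_meas i j σ τ k l).inter (sc_meas hp hf hC i σ r)).inter (fu_meas hp hf hC i).compl

theorem ee_per {f : ℂ × ℝ → ℝ} (hI : IsInvariantFun p f) (C : Set ℝ) (r : ℝ)
    (i j : Fin (n + 3)) (σ τ : ℝ) (k : ℕ) (l : List (Fin (n + 3))) (θ : ℝ) :
    θ + 2 * π ∈ Ee p f C r i j σ τ k l ↔ θ ∈ Ee p f C r i j σ τ k l := by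
  unfold Ee
  rw [mem_inter_iff, mem_inter_iff, mem_compl_iff, ec_per, sc_per hI, fu_per hI]
  rfl

/-- the generic directions -/
def Gn (p : Fin (n + 3) → ℂ) (θ : ℝ) : Prop := ∀ z : ℂ,
  (∀ w j, ∀ s : ℝ, 0 < s → z + s • dir θ ≠ uf p w (p j)) ∨
  (∀ w j, ∀ s : ℝ, 0 < s → z - s • dir θ ≠ uf p w (p j))

/-- injectivity -/
theorem same (hp : IsConvexPolygon p) {f : ℂ × ℝ → ℝ} (hI : IsInvariantFun p f) {C : Set ℝ}
    {r : ℝ} {i j : Fin (n + 3)} {σ τ : ℝ} (hσ : σ = 1 ∨ σ = -1) {k1 k2 : ℕ}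
    {l1 l2 : List (Fin (n + 3))} {θ1 θ2 : ℝ} (h1 : θ1 ∈ Ee p f C r i j σ τ k1 l1)
    (h2 : θ2 ∈ Ee p f C r i j σ τ k2 l2) (hg : Gn p θ1)
    (hd : dir (angs p θ1 (wl l1) l1.length) = dir (angs p θ2 (wl l2) l2.length))
    (hv : τ * vd p (p i) θ1 (wl l1) l1.length j ≤ τ * vd p (p i) θ2 (wl l2) l2.length j)
    (hr : (1 / 2 : ℝ) ^ k2 ≤ r) : k1 = k2 ∧ l1 = l2 := by
  obtain ⟨⟨⟨a1, a2, a3, a4, a5⟩, a6⟩, a7⟩ := h1
  obtain ⟨⟨⟨b1, b2, b3, b4, b5⟩, b6⟩, b7⟩ := h2
  have hττ : τ * τ = 1 := by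
    rw [a1, neg_mul_neg]
    exact sign_sq hσ _
  have hpos1 : 0 < τ * vd p (p i) θ1 (wl l1) l1.length j := lt_trans (by positivity) a3
  have e1 : vd p (p i) θ1 (wl l1) l1.length j = τ * (τ * vd p (p i) θ1 (wl l1) l1.length j) := by
    rw [← mul_assoc, hττ, one_mul]
  have e2 : vd p (p i) θ2 (wl l2) l2.length j = τ * (τ * vd p (p i) θ2 (wl l2) l2.length j) := by
    rw [← mul_assoc, hττ, one_mul]
  rcases rec_unique hp hσ a5 b5 hd e1 e2 b1 hpos1 hv with ⟨c1, c2, c3⟩ | ⟨c1, c2, c3, c4⟩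
  · constructor
    · rcases lt_trichotomy k1 k2 with h | h | h
      · exfalso
        have h4 : (1 / 2 : ℝ) ^ k2 ≤ (1 / 2 : ℝ) ^ (k1 + 1) :=
          pow_le_pow_of_le_one (by norm_num) (by norm_num) h
        linarith
      · exact h
      · exfalso
        have h4 : (1 / 2 : ℝ) ^ k1 ≤ (1 / 2 : ℝ) ^ (k2 + 1) :=
          pow_le_pow_of_le_one (by norm_num) (by norm_num) h
        linarith
    · refine List.ext_getElem c1 fun m hm1 hm2 => ?_
      have h5 := c2 m hm1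
      unfold wl at h5
      rwa [List.getD_eq_getElem _ _ hm1, List.getD_eq_getElem _ _ hm2] at h5
  · exfalso
    obtain ⟨u, t, O⟩ := exists_orb hp (ok_vertex hp a5.ent a2 hg)
    have hu := itin_eq hp O a5.ex a5.op
    have hu' : ∀ m < l1.length - l2.length, u m = wl l1 m := fun m hm => hu m (by omega)
    apply a7
    refine transport1 hp hI O (σ := σ) (r := r) (j := i) (K := l1.length - l2.length) ?_ ?_ ?_
    · rw [vd_congr' hu', c3]
      linarith
    · rw [vd_congr' hu', c3]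
      linarith
    · rw [angs_congr hu']
      exact sc_dir hI c2 b6

theorem affine_qmp {e : ℝ} (he : e = 1 ∨ e = -1) (c : ℝ) :
    Measure.QuasiMeasurePreserving (fun ψ : ℝ => e * (ψ - c)) := by
  rcases he with rfl | rfl
  · have : (fun ψ : ℝ => 1 * (ψ - c)) = fun ψ => ψ - c := by
      funext ψ; ring
    rw [this]
    exact (measurePreserving_sub_right (volume : Measure ℝ) c).quasiMeasurePreserving
  · have : (fun ψ : ℝ => -1 * (ψ - c)) = fun ψ => c - ψ := by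
      funext ψ; ring
    rw [this]
    exact (Measure.measurePreserving_sub_left (volume : Measure ℝ) c).quasiMeasurePreserving

/-- The sum of the measures over all scales is finite. -/
theorem sum1 (hp : IsConvexPolygon p) {f : ℂ × ℝ → ℝ} (hf : Measurable f)
    (hI : IsInvariantFun p f) {C : Set ℝ} (hC : MeasurableSet C) {r : ℝ} (i j : Fin (n + 3))
    {σ : ℝ} (hσ : σ = 1 ∨ σ = -1) (τ : ℝ) {k0 : ℕ} (hk : (1 / 2 : ℝ) ^ k0 ≤ r) (a : ℝ) :
    ∑' x : ℕ × List (Fin (n + 3)), volume (Ee p f C r i j σ τ (k0 + x.1) x.2 ∩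
      Ioc a (a + 2 * π)) ≤ volume (Ioc (0 : ℝ) (2 * π)) := by
  classical
  choose e c he hec using fun l : List (Fin (n + 3)) => angs_affine (p := p) (wl l) l.length
  have hee : ∀ l, e l * e l = 1 := by
    intro l
    rcases he l with h | h <;> rw [h] <;> norm_num
  set F : ℕ × List (Fin (n + 3)) → Set ℝ := fun x =>
    {ψ | e x.2 * (ψ - c x.2) ∈ Ee p f C r i j σ τ (k0 + x.1) x.2} with hF
  have hFm : ∀ x, MeasurableSet (F x) := by
    intro x
    have : Measurable fun ψ : ℝ => e x.2 * (ψ - c x.2) := by fun_prop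
    exact this (ee_meas hp hf hC r i j σ τ _ _)
  have hFper : ∀ x ψ, ψ + 2 * π ∈ F x ↔ ψ ∈ F x := by
    intro x ψ
    show e x.2 * (ψ + 2 * π - c x.2) ∈ Ee p f C r i j σ τ (k0 + x.1) x.2 ↔
      e x.2 * (ψ - c x.2) ∈ Ee p f C r i j σ τ (k0 + x.1) x.2
    rcases he x.2 with h | h
    · rw [h, ← ee_per hI C r i j σ τ _ x.2 (1 * (ψ - c x.2))]
      ring_nf
    · rw [h, ← ee_per hI C r i j σ τ _ x.2 (-1 * (ψ + 2 * π - c x.2))]
      ring_nf
  have hang : ∀ l ψ, angs p (e l * (ψ - c l)) (wl l) l.length = ψ := by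
    intro l ψ
    rw [hec]
    calc e l * (e l * (ψ - c l)) + c l = (e l * e l) * (ψ - c l) + c l := by ring
      _ = ψ := by rw [hee]; ring
  have hgen : ∀ x : ℕ × List (Fin (n + 3)), ∀ᵐ ψ : ℝ, Gn p (e x.2 * (ψ - c x.2)) :=
    fun x => (affine_qmp (he x.2) (c x.2)).ae (no_diag p)
  have hdisj : Pairwise (Function.onFun (AEDisjoint volume) fun x => F x ∩ Ioc 0 (2 * π)) := by
    intro x y hne
    show volume ((F x ∩ Ioc 0 (2 * π)) ∩ (F y ∩ Ioc 0 (2 * π))) = 0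
    rw [measure_eq_zero_iff_ae_notMem]
    filter_upwards [hgen x, hgen y] with ψ g1 g2
    rintro ⟨⟨h1, -⟩, ⟨h2, -⟩⟩
    apply hne
    have hkx : (1 / 2 : ℝ) ^ (k0 + x.1) ≤ r :=
      (pow_le_pow_of_le_one (by norm_num) (by norm_num) (Nat.le_add_right _ _)).trans hk
    have hky : (1 / 2 : ℝ) ^ (k0 + y.1) ≤ r :=
      (pow_le_pow_of_le_one (by norm_num) (by norm_num) (Nat.le_add_right _ _)).trans hk
    have hd : dir (angs p (e x.2 * (ψ - c x.2)) (wl x.2) x.2.length) =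
        dir (angs p (e y.2 * (ψ - c y.2)) (wl y.2) y.2.length) := by
      rw [hang, hang]
    rcases le_total (τ * vd p (p i) (e x.2 * (ψ - c x.2)) (wl x.2) x.2.length j)
      (τ * vd p (p i) (e y.2 * (ψ - c y.2)) (wl y.2) y.2.length j) with h | h
    · obtain ⟨q1, q2⟩ := same hp hI hσ h1 h2 g1 hd h hky
      exact Prod.ext (by omega) q2
    · obtain ⟨q1, q2⟩ := same hp hI hσ h2 h1 g2 hd.symm h hkx
      exact Prod.ext (by omega) q2.symm
  have hset : ∀ x, Ee p f C r i j σ τ (k0 + x.1) x.2 =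
      (fun θ => e x.2 * θ + c x.2) ⁻¹' (F x) := by
    intro x
    ext θ
    show _ ↔ e x.2 * (e x.2 * θ + c x.2 - c x.2) ∈ Ee p f C r i j σ τ (k0 + x.1) x.2
    have e1 : e x.2 * (e x.2 * θ + c x.2 - c x.2) = θ := by
      calc e x.2 * (e x.2 * θ + c x.2 - c x.2) = (e x.2 * e x.2) * θ := by ring
        _ = θ := by rw [hee]; ring
    rw [e1]
  calc ∑' x : ℕ × List (Fin (n + 3)), volume (Ee p f C r i j σ τ (k0 + x.1) x.2 ∩
        Ioc a (a + 2 * π)) = ∑' x, volume (F x ∩ Ioc 0 (2 * π)) := by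
        refine tsum_congr fun x => ?_
        rw [hset x]
        exact per_pre (hFm x) (hFper x) (he x.2) a
    _ = volume (⋃ x, (F x ∩ Ioc 0 (2 * π))) :=
        (measure_iUnion₀ hdisj fun x => ((hFm x).inter measurableSet_Ioc).nullMeasurableSet).symm
    _ ≤ volume (Ioc (0 : ℝ) (2 * π)) :=
        measure_mono (iUnion_subset fun x => inter_subset_right)

/-- records in terms of lists -/
theorem rec_list {i : Fin (n + 3)} {σ v θ : ℝ} {u : ℕ → Fin (n + 3)} {K : ℕ}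
    (H : Rec p i σ v K u θ) :
    Rec p i σ v ((List.range K).map u).length (wl ((List.range K).map u)) θ ∧
      ∀ m < K, wl ((List.range K).map u) m = u m := by
  set l := (List.range K).map u with hl
  have hlen : l.length = K := by rw [hl, List.length_map, List.length_range]
  have hw : ∀ k < K, wl l k = u k := by
    intro k hk
    unfold wl
    rw [List.getD_eq_getElem _ _ (by rw [hlen]; exact hk)]
    simp [hl]
  have hw' : ∀ m ≤ K, ∀ k < m, wl l k = u k := fun m hm k hk => hw k (by omega)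
  refine ⟨⟨H.ent, ?_, ?_, ?_, ?_⟩, hw⟩
  · intro m hm
    rw [hlen] at hm
    rw [hw m hm, angs_congr (hw' m hm.le)]
    exact H.ex m hm
  · intro m hm
    rw [hlen] at hm
    rw [hw m hm, vd_congr' (hw' m hm.le), vd_congr' (hw' m hm.le)]
    exact H.op m hm
  · intro m hm
    rw [hlen] at hm
    rw [hw m hm, vd_congr' (hw' m hm.le)]
    exact H.wl m hm
  · intro m hm
    rw [hlen] at hm
    rw [hw m hm, vd_congr' (hw' m hm.le)]
    exact H.wr m hm

theorem two_window (hp : IsConvexPolygon p) {f : ℂ × ℝ → ℝ} (hf : Measurable f)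
    (hI : IsInvariantFun p f) {C : Set ℝ} (hC : MeasurableSet C) (i : Fin (n + 3))
    {σ : ℝ} (hσ : σ = 1 ∨ σ = -1) {r : ℝ} {k0 : ℕ} (hk : (1 / 2 : ℝ) ^ k0 ≤ r) (a : ℝ) :
    ∀ᵐ θ : ℝ, ∀ᶠ k in atTop, θ ∉ ⋃ x : Fin (n + 3) × Bool, ⋃ l : List (Fin (n + 3)),
      (Ee p f C r i x.1 σ (if x.2 then 1 else -1) (k0 + k) l ∩ Ioc a (a + 2 * π)) := by
  refine ae_eventually_notMem ?_
  have h1 : ∀ k, volume (⋃ x : Fin (n + 3) × Bool, ⋃ l : List (Fin (n + 3)),
      (Ee p f C r i x.1 σ (if x.2 then 1 else -1) (k0 + k) l ∩ Ioc a (a + 2 * π))) ≤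
      ∑' x : Fin (n + 3) × Bool, ∑' l : List (Fin (n + 3)),
        volume (Ee p f C r i x.1 σ (if x.2 then 1 else -1) (k0 + k) l ∩ Ioc a (a + 2 * π)) := by
    intro k
    exact (measure_iUnion_le _).trans (ENNReal.tsum_le_tsum fun x => measure_iUnion_le _)
  refine ne_of_lt (lt_of_le_of_lt (ENNReal.tsum_le_tsum h1) ?_)
  rw [ENNReal.tsum_comm]
  have h2 : ∀ x : Fin (n + 3) × Bool, ∑' (k : ℕ) (l : List (Fin (n + 3))),
      volume (Ee p f C r i x.1 σ (if x.2 then 1 else -1) (k0 + k) l ∩ Ioc a (a + 2 * π)) ≤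
      volume (Ioc (0 : ℝ) (2 * π)) := by
    intro x
    have h3 := sum1 hp hf hI hC i x.1 hσ (if x.2 then 1 else -1) hk a
    rw [ENNReal.tsum_prod'] at h3
    exact h3
  refine lt_of_le_of_lt (ENNReal.tsum_le_tsum h2) ?_
  rw [tsum_fintype]
  exact ENNReal.sum_lt_top.2 fun x _ => measure_Ioc_lt_top

/-- For almost every direction which enters the polygon at `p i`, values in `C` in a strip on one side
imply values in `C` near `p i`. -/
theorem two_out (hp : IsConvexPolygon p) {f : ℂ × ℝ → ℝ} (hf : Measurable f)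
    (hI : IsInvariantFun p f) {C : Set ℝ} (hC : MeasurableSet C) (i : Fin (n + 3))
    {σ : ℝ} (hσ : σ = 1 ∨ σ = -1) :
    ∀ᵐ θ : ℝ, 0 < sl p i θ → 0 < sl p (i - 1) θ →
      (∃ r : ℝ, 0 < r ∧ θ ∈ SC p f C i σ r) → θ ∈ FU p f C i := by
  have hk : ∀ m : ℕ, ∃ k0 : ℕ, (1 / 2 : ℝ) ^ k0 ≤ 1 / ((m : ℝ) + 1) := by
    intro m
    obtain ⟨k0, h⟩ := exists_pow_lt_of_lt_one (show (0 : ℝ) < 1 / ((m : ℝ) + 1) by positivity)
      (show (1 / 2 : ℝ) < 1 by norm_num)
    exact ⟨k0, h.le⟩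
  choose k0 hk0 using hk
  have hall : ∀ᵐ θ : ℝ, ∀ (m : ℕ) (b : ℤ), ∀ᶠ k in atTop, θ ∉ ⋃ x : Fin (n + 3) × Bool,
      ⋃ l : List (Fin (n + 3)), (Ee p f C (1 / ((m : ℝ) + 1)) i x.1 σ (if x.2 then 1 else -1)
        (k0 m + k) l ∩ Ioc ((b : ℝ) * (2 * π)) ((b : ℝ) * (2 * π) + 2 * π)) := by
    rw [ae_all_iff]
    intro m
    rw [ae_all_iff]
    intro b
    exact two_window hp hf hI hC i hσ (hk0 m) _
  filter_upwards [hall, no_diag p, Pool.Agent.N130.BP.t_allp n p hp, t_okae n p hp]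
    with θ g1 g2 g3 g4 h1 h2 ⟨r, hr, hS⟩
  by_contra hcon
  obtain ⟨m, hm⟩ := exists_nat_one_div_lt hr
  have hS' : θ ∈ SC p f C i σ (1 / ((m : ℝ) + 1)) := sc_mono hm.le hS
  have hpi := Real.two_pi_pos
  have hb : θ ∈ Ioc (((⌈θ / (2 * π)⌉ - 1 : ℤ) : ℝ) * (2 * π))
      (((⌈θ / (2 * π)⌉ - 1 : ℤ) : ℝ) * (2 * π) + 2 * π) := by
    constructor
    · have := Int.ceil_lt_add_one (θ / (2 * π))
      have h2 : (⌈θ / (2 * π)⌉ : ℝ) - 1 < θ / (2 * π) := by linarith
      rw [lt_div_iff₀ hpi] at h2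
      push_cast
      exact h2
    · have := Int.le_ceil (θ / (2 * π))
      rw [div_le_iff₀ hpi] at this
      push_cast
      linarith
  obtain ⟨N, hN⟩ := eventually_atTop.1 (g1 m (⌈θ / (2 * π)⌉ - 1))
  obtain ⟨u, t, K, j, O, c1, c2, c3⟩ := cover1 hp hσ
    (show (0 : ℝ) < (1 / 2) ^ (k0 m + N) by positivity) h1 h2 g2 g3 g4
  set v : ℝ := -((-1) ^ K * σ) * vd p (p i) θ u K j with hv
  have hv1 : v ≤ 1 := c2.le.trans (pow_le_one₀ (by norm_num) (by norm_num))
  obtain ⟨k', hk1, hk2⟩ := exists_nat_pow_near_of_lt_one c1 hv1 (show (0 : ℝ) < 1 / 2 by norm_num)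
    (show (1 / 2 : ℝ) < 1 by norm_num)
  have hk3 : k0 m + N ≤ k' := by
    by_contra hlt
    push Not at hlt
    have h5 : (1 / 2 : ℝ) ^ (k0 m + N) ≤ (1 / 2 : ℝ) ^ (k' + 1) :=
      pow_le_pow_of_le_one (by norm_num) (by norm_num) hlt
    linarith
  have hb2 : ∃ b : Bool, -((-1 : ℝ) ^ K * σ) = if b then 1 else -1 := by
    have h5 := sign_sq hσ K
    have h6 : ((-1 : ℝ) ^ K * σ - 1) * ((-1) ^ K * σ + 1) = 0 := by linear_combination h5
    rcases mul_eq_zero.1 h6 with h7 | h7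
    · refine ⟨false, ?_⟩
      have : (-1 : ℝ) ^ K * σ = 1 := by linarith
      rw [this]; simp
    · refine ⟨true, ?_⟩
      have : (-1 : ℝ) ^ K * σ = -1 := by linarith
      rw [this]; simp
  obtain ⟨b, hb3⟩ := hb2
  obtain ⟨d1, d2⟩ := rec_list c3
  have hlen : ((List.range K).map u).length = K := by rw [List.length_map, List.length_range]
  have hvd : vd p (p i) θ (wl ((List.range K).map u)) ((List.range K).map u).length j =
      vd p (p i) θ u K j := by
    rw [hlen]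
    exact vd_congr' d2 j
  refine hN (k' - k0 m) (by omega) (mem_iUnion.2 ⟨(j, b), mem_iUnion.2
    ⟨(List.range K).map u, ⟨⟨⟨?_, h2, ?_, ?_, ?_⟩, hS'⟩, hcon⟩, hb⟩⟩)
  · rw [hlen]
    exact hb3.symm
  · rw [hvd]
    simp only
    rw [← hb3, show k0 m + (k' - k0 m) + 1 = k' + 1 by omega]
    exact hk1
  · rw [hvd]
    simp only
    rw [← hb3, show k0 m + (k' - k0 m) = k' by omega]
    exact hk2
  · rw [hvd]
    simp only
    rw [← hb3]
    exact d1

end Pool.Agent.U106.OI
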