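import Pool.Agent.U106.BI.Meas

set_option autoImplicit false

/-!
Billiards in convex polygons: one-sided strips. A record of the line from the vertex `p i` in the
direction `θ`, on the side `σ`, is a vertex on this side which is closer to the line than all vertices
met before on this side. We compare two lines from `p i` which have the same vertex `p j` as a record
and arrive there in the same direction and on the same side.
-/

namespace Pool.Agent.U106.OI

open Complex Set MeasureTheory Filter Topology Pool.Agent.W780.PG Pool.Agent.W780.BB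
  Pool.Agent.TH103.BL Pool.Agent.N557.BP Pool.Agent.U106.BI

open scoped Real ComplexConjugate

variable {n : ℕ} {p : Fin (n + 3) → ℂ}

/-- the line from `p i` in the direction `θ` crosses the sides `w m`, `m < K`, and their end points on
the side `σ` of the line (in frame `m`: on the side `(-1) ^ m σ`) have at least the distance `v` -/
structure Rec (p : Fin (n + 3) → ℂ) (i : Fin (n + 3)) (σ v : ℝ) (K : ℕ) (w : ℕ → Fin (n + 3))
    (θ : ℝ) : Prop where
  ent : 0 < sl p i θ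
  ex : ∀ m < K, sl p (w m) (angs p θ w m) < 0
  op : ∀ m < K, vd p (p i) θ w m (w m) * vd p (p i) θ w m (w m + 1) < 0
  wl : ∀ m < K, 0 < (-1) ^ m * σ * vd p (p i) θ w m (w m) ∨
    (-1) ^ m * σ * vd p (p i) θ w m (w m) ≤ -v
  wr : ∀ m < K, 0 < (-1) ^ m * σ * vd p (p i) θ w m (w m + 1) ∨
    (-1) ^ m * σ * vd p (p i) θ w m (w m + 1) ≤ -v

theorem Rec.enter (hp : IsConvexPolygon p) {i : Fin (n + 3)} {σ v : ℝ} {K : ℕ}
    {w : ℕ → Fin (n + 3)} {θ : ℝ} (H : Rec p i σ v K w θ) {m : ℕ} (hm : m < K) :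
    0 < sl p (w m) (angs p θ w (m + 1)) ∧
    V p (srcs p (p i) w (m + 1)) (angs p θ w (m + 1)) (w m) *
      V p (srcs p (p i) w (m + 1)) (angs p θ w (m + 1)) (w m + 1) < 0 ∧
    (0 < (-1) ^ (m + 1) * σ * V p (srcs p (p i) w (m + 1)) (angs p θ w (m + 1)) (w m) ∨
      (-1) ^ (m + 1) * σ * V p (srcs p (p i) w (m + 1)) (angs p θ w (m + 1)) (w m) ≤ -v) ∧
    (0 < (-1) ^ (m + 1) * σ * V p (srcs p (p i) w (m + 1)) (angs p θ w (m + 1)) (w m + 1) ∨
      (-1) ^ (m + 1) * σ * V p (srcs p (p i) w (m + 1)) (angs p θ w (m + 1)) (w m + 1) ≤ -v) := by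
  have e1 : angs p θ w (m + 1) = 2 * tau p (w m) - angs p θ w m := rfl
  have e2 : srcs p (p i) w (m + 1) = rf p (w m) (srcs p (p i) w m) := rfl
  have h1 := H.ex m hm
  have h2 := H.op m hm
  have h3 := H.wl m hm
  have h4 := H.wr m hm
  rw [vd_V] at h2 h3 h4
  rw [vd_V] at h2
  have e3 : ∀ x : ℝ, (-1) ^ (m + 1) * σ * -x = (-1) ^ m * σ * x := by
    intro x
    ring
  rw [e1, e2, sl_refl hp, V_rf hp (Or.inl rfl), V_rf hp (Or.inr rfl), neg_mul_neg, e3, e3]
  exact ⟨by linarith, h2, h3, h4⟩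

/-- A line through a vertex which enters through another side leaves at the vertex. -/
theorem exit_of_cross (hp : IsConvexPolygon p) {X : ℂ} {ψ : ℝ} {c i : Fin (n + 3)}
    (hc : 0 < sl p c ψ) (hc' : V p X ψ c * V p X ψ (c + 1) < 0) (hi : V p X ψ i = 0) :
    sl p i ψ < 0 ∧ sl p (i - 1) ψ < 0 := by
  have h1 : V p X ψ c ≠ 0 := by
    intro h
    rw [h, zero_mul] at hc'
    exact lt_irrefl _ hc'
  have h2 : V p X ψ (c + 1) ≠ 0 := by
    intro h
    rw [h, mul_zero] at hc'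
    exact lt_irrefl _ hc'
  exact near_exit hp hc hc' (min_le_left _ _) (min_le_right _ _)
    (by rw [hi, abs_zero]; exact lt_min (abs_pos.2 h1) (abs_pos.2 h2))

theorem sign_shift {S A B d v : ℝ} (hS : S * S = 1) (h : A * B < 0) (hd0 : 0 ≤ d) (hdv : d < v)
    (hA : 0 < S * A ∨ S * A ≤ -v) (hB : 0 < S * B ∨ S * B ≤ -v) :
    (A + S * d) * (B + S * d) < 0 := by
  have e : (A + S * d) * (B + S * d) = (S * A + d) * (S * B + d) := by
    linear_combination (-A * B) * hS + d * d * hS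
  have e2 : (S * A) * (S * B) < 0 := by
    have : (S * A) * (S * B) = A * B := by
      linear_combination (A * B) * hS
    rw [this]; exact h
  rw [e]
  rcases mul_neg_iff.1 e2 with ⟨ha, hb⟩ | ⟨ha, hb⟩
  · rcases hB with h1 | h1
    · linarith
    · exact mul_neg_of_pos_of_neg (by linarith) (by linarith)
  · rcases hA with h1 | h1
    · linarith
    · exact mul_neg_of_neg_of_pos (by linarith) (by linarith)

theorem sign_sq {σ : ℝ} (hσ : σ = 1 ∨ σ = -1) (m : ℕ) : ((-1) ^ m * σ) * ((-1) ^ m * σ) = 1 := by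
  have h1 : ((-1 : ℝ) ^ m) * (-1) ^ m = 1 := by
    rw [← mul_pow]; norm_num
  have h2 : σ * σ = 1 := by
    rcases hσ with rfl | rfl <;> norm_num
  calc ((-1) ^ m * σ) * ((-1) ^ m * σ) = ((-1 : ℝ) ^ m * (-1) ^ m) * (σ * σ) := by ring
    _ = 1 := by rw [h1, h2, one_mul]

/-- relative position of two lines: the first is displaced by `d` to the side of the strip -/
def DD (p : Fin (n + 3) → ℂ) (i : Fin (n + 3)) (σ d : ℝ) (w1 w2 : ℕ → Fin (n + 3)) (θ1 θ2 : ℝ)
    (a b : ℕ) : Prop :=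
  dir (angs p θ1 w1 a) = dir (angs p θ2 w2 b) ∧
    (conj (dir (angs p θ1 w1 a)) * (srcs p (p i) w1 a - srcs p (p i) w2 b)).im = (-1) ^ b * σ * d

/-- in the strip of the second line the first one enters through the same side -/
theorem DD_cross (hp : IsConvexPolygon p) {i : Fin (n + 3)} {σ d v : ℝ} {K2 : ℕ}
    {w1 w2 : ℕ → Fin (n + 3)} {θ1 θ2 : ℝ} (hσ : σ = 1 ∨ σ = -1) (hd0 : 0 ≤ d) (hdv : d < v)
    (H2 : Rec p i σ v K2 w2 θ2) {a b : ℕ} (hb : b < K2)
    (h : DD p i σ d w1 w2 θ1 θ2 a (b + 1)) :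
    0 < sl p (w2 b) (angs p θ1 w1 a) ∧
      V p (srcs p (p i) w1 a) (angs p θ1 w1 a) (w2 b) *
        V p (srcs p (p i) w1 a) (angs p θ1 w1 a) (w2 b + 1) < 0 := by
  obtain ⟨hd, hv⟩ := h
  obtain ⟨b1, b2, b3, b4⟩ := H2.enter hp hb
  have e : ∀ q, V p (srcs p (p i) w1 a) (angs p θ1 w1 a) q =
      V p (srcs p (p i) w2 (b + 1)) (angs p θ2 w2 (b + 1)) q + (-1) ^ (b + 1) * σ * d := by
    intro q
    have h1 := V_diff (p := p) (X1 := srcs p (p i) w1 a) (X2 := srcs p (p i) w2 (b + 1)) hd q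
    rw [h1, hv]
    ring
  refine ⟨by rw [sl_dir hd]; exact b1, ?_⟩
  rw [e, e]
  exact sign_shift (sign_sq hσ (b + 1)) b2 hd0 hdv b3 b4

theorem DD_step (hp : IsConvexPolygon p) {i : Fin (n + 3)} {σ d v1 v : ℝ} {K1 K2 : ℕ}
    {w1 w2 : ℕ → Fin (n + 3)} {θ1 θ2 : ℝ} (hσ : σ = 1 ∨ σ = -1) (hd0 : 0 ≤ d) (hdv : d < v)
    (H1 : Rec p i σ v1 K1 w1 θ1) (H2 : Rec p i σ v K2 w2 θ2) {a b : ℕ} (ha : a < K1) (hb : b < K2)
    (h : DD p i σ d w1 w2 θ1 θ2 (a + 1) (b + 1)) :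
    w1 a = w2 b ∧ DD p i σ d w1 w2 θ1 θ2 a b := by
  obtain ⟨c1, c2⟩ := DD_cross hp hσ hd0 hdv H2 hb h
  obtain ⟨hd, hv⟩ := h
  obtain ⟨a1, a2, -, -⟩ := H1.enter hp ha
  have heq : w1 a = w2 b := enter_unique hp a1 c1 a2 c2
  refine ⟨heq, ?_, ?_⟩
  · have e1 : angs p θ1 w1 a = 2 * tau p (w1 a) - angs p θ1 w1 (a + 1) := by
      show _ = 2 * tau p (w1 a) - (2 * tau p (w1 a) - angs p θ1 w1 a)
      ring
    have e2 : angs p θ2 w2 b = 2 * tau p (w2 b) - angs p θ2 w2 (b + 1) := by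
      show _ = 2 * tau p (w2 b) - (2 * tau p (w2 b) - angs p θ2 w2 b)
      ring
    rw [e1, e2, dir_two, dir_two, hd, heq]
  · have h1 := disp_rf (p := p) (w1 a) (srcs p (p i) w1 a) (srcs p (p i) w2 b) (angs p θ1 w1 a)
    have e1 : angs p θ1 w1 (a + 1) = 2 * tau p (w1 a) - angs p θ1 w1 a := rfl
    have e2 : srcs p (p i) w1 (a + 1) = rf p (w1 a) (srcs p (p i) w1 a) := rfl
    have e3 : srcs p (p i) w2 (b + 1) = rf p (w1 a) (srcs p (p i) w2 b) := by
      show rf p (w2 b) _ = _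
      rw [heq]
    rw [e1, e2, e3, h1, pow_succ] at hv
    linarith

/-- Two lines from `p i` with the same record, arriving in the same direction and on the same side:
they are equal, or the line which passes closer comes from the strip beside the start of the other. -/
theorem rec_unique (hp : IsConvexPolygon p) {i j : Fin (n + 3)} {σ τ v1 v2 : ℝ} {K1 K2 : ℕ}
    {w1 w2 : ℕ → Fin (n + 3)} {θ1 θ2 : ℝ} (hσ : σ = 1 ∨ σ = -1)
    (H1 : Rec p i σ v1 K1 w1 θ1) (H2 : Rec p i σ v2 K2 w2 θ2)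
    (hd : dir (angs p θ1 w1 K1) = dir (angs p θ2 w2 K2))
    (e1 : vd p (p i) θ1 w1 K1 j = τ * v1) (e2 : vd p (p i) θ2 w2 K2 j = τ * v2)
    (hτ : τ = -((-1) ^ K2 * σ)) (h1 : 0 < v1) (h12 : v1 ≤ v2) :
    (K1 = K2 ∧ (∀ m < K1, w1 m = w2 m) ∧ v1 = v2) ∨
    (K2 < K1 ∧ dir (angs p θ1 w1 (K1 - K2)) = dir θ2 ∧
      σ * vd p (p i) θ1 w1 (K1 - K2) i = v2 - v1 ∧ v1 < v2) := by
  have hd0 : 0 ≤ v2 - v1 := by linarith
  have hdv : v2 - v1 < v2 := by linarith
  have hss : σ * σ = 1 := by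
    rcases hσ with rfl | rfl <;> norm_num
  have hbase : DD p i σ (v2 - v1) w1 w2 θ1 θ2 K1 K2 := by
    refine ⟨hd, ?_⟩
    have e := V_diff (p := p) (X1 := srcs p (p i) w1 K1) (X2 := srcs p (p i) w2 K2) hd j
    rw [← vd_V, ← vd_V, e1, e2] at e
    rw [hτ] at e
    linarith
  have key : ∀ m, m ≤ K1 → m ≤ K2 → DD p i σ (v2 - v1) w1 w2 θ1 θ2 (K1 - m) (K2 - m) ∧
      ∀ m' < m, w1 (K1 - 1 - m') = w2 (K2 - 1 - m') := by
    intro m
    induction m with
    | zero => exact fun _ _ => ⟨hbase, fun m' hm' => absurd hm' (by omega)⟩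
    | succ m ih =>
      intro hm hm2
      obtain ⟨h3, h4⟩ := ih (by omega) (by omega)
      have f1 : K1 - m = (K1 - (m + 1)) + 1 := by omega
      have f2 : K2 - m = (K2 - (m + 1)) + 1 := by omega
      rw [f1, f2] at h3
      obtain ⟨h5, h6⟩ := DD_step hp hσ hd0 hdv H1 H2 (by omega) (by omega) h3
      refine ⟨h6, fun m' hm' => ?_⟩
      rcases Nat.lt_succ_iff_lt_or_eq.1 hm' with h7 | h7
      · exact h4 m' h7
      · rw [h7]
        have f3 : K1 - 1 - m = K1 - (m + 1) := by omega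
        have f4 : K2 - 1 - m = K2 - (m + 1) := by omega
        rw [f3, f4]
        exact h5
  rcases lt_trichotomy K1 K2 with hK | hK | hK
  · exfalso
    obtain ⟨h3, -⟩ := key K1 le_rfl hK.le
    obtain ⟨b, hb⟩ : ∃ b, K2 - K1 = b + 1 := ⟨K2 - K1 - 1, by omega⟩
    rw [Nat.sub_self, hb] at h3
    obtain ⟨c1, c2⟩ := DD_cross hp hσ hd0 hdv H2 (show b < K2 by omega) h3
    have h0 : V p (srcs p (p i) w1 0) (angs p θ1 w1 0) i = 0 := by
      show (conj (dir θ1) * (p i - p i)).im = 0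
      rw [sub_self, mul_zero, zero_im]
    have h4 := (exit_of_cross hp c1 c2 h0).1
    have h5 := H1.ent
    have h6 : sl p i θ1 < 0 := h4
    linarith
  · left
    obtain ⟨h3, h4⟩ := key K1 le_rfl hK.le
    rw [← hK, Nat.sub_self] at h3
    obtain ⟨-, h5⟩ := h3
    have h6 : (conj (dir (angs p θ1 w1 0)) * (srcs p (p i) w1 0 - srcs p (p i) w2 0)).im = 0 := by
      show (conj (dir θ1) * (p i - p i)).im = 0
      rw [sub_self, mul_zero, zero_im]
    rw [h6, pow_zero, one_mul] at h5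
    have h7 : v2 - v1 = 0 := by
      calc v2 - v1 = (σ * σ) * (v2 - v1) := by rw [hss, one_mul]
        _ = σ * (σ * (v2 - v1)) := by ring
        _ = 0 := by rw [← h5, mul_zero]
    refine ⟨hK, fun m hm => ?_, by linarith⟩
    have h8 := h4 (K1 - 1 - m) (by omega)
    have f1 : K1 - 1 - (K1 - 1 - m) = m := by omega
    have f2 : K2 - 1 - (K1 - 1 - m) = m := by omega
    rwa [f1, f2] at h8
  · right
    obtain ⟨h3, -⟩ := key K2 hK.le le_rfl
    rw [Nat.sub_self] at h3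
    obtain ⟨h4, h5⟩ := h3
    have h6 : vd p (p i) θ1 w1 (K1 - K2) i = σ * (v2 - v1) := by
      rw [vd_V]
      have : V p (srcs p (p i) w1 (K1 - K2)) (angs p θ1 w1 (K1 - K2)) i = (conj (dir (angs p θ1 w1 (K1 - K2))) *
        (srcs p (p i) w1 (K1 - K2) - srcs p (p i) w2 0)).im := rfl
      rw [this, h5, pow_zero, one_mul]
    have h7 : σ * vd p (p i) θ1 w1 (K1 - K2) i = v2 - v1 := by
      rw [h6, ← mul_assoc, hss, one_mul]
    refine ⟨hK, h4, h7, ?_⟩
    rcases h12.lt_or_eq with h8 | h8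
    · exact h8
    · exfalso
      obtain ⟨a, ha⟩ : ∃ a, K1 - K2 = a + 1 := ⟨K1 - K2 - 1, by omega⟩
      have h9 : V p (srcs p (p i) w1 (a + 1)) (angs p θ1 w1 (a + 1)) i = 0 := by
        rw [← vd_V, ← ha, h6, h8, sub_self, mul_zero]
      obtain ⟨a1, a2, -, -⟩ := H1.enter hp (show a < K1 by omega)
      have h10 := (exit_of_cross hp a1 a2 h9).1
      rw [ha] at h4
      rw [sl_dir h4] at h10
      have h11 := H2.ent
      have h12' : sl p i θ2 < 0 := h10
      linarith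

end Pool.Agent.U106.OI
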