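import Pool.Agent.U106.OI.Refl
import Pool.Agent.U106.BI.Hits

set_option autoImplicit false

/-!
Billiards in convex polygons: if the values of a slice are in `C` on an open set, then near a vertex.
-/

namespace Pool.Agent.U106.OI

open Complex Set MeasureTheory Filter Topology Pool.Agent.W780.PG Pool.Agent.W780.BB
  Pool.Agent.TH103.BL Pool.Agent.N557.BP Pool.Agent.U106.BI

open scoped Real ComplexConjugate

variable {n : ℕ} {p : Fin (n + 3) → ℂ}

theorem mp_uf (p : Fin (n + 3) → ℂ) (w : List (Fin (n + 3))) : MeasurePreserving (uf p w) := by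
  induction w with
  | nil => exact MeasurePreserving.id _
  | cons i w ih => exact (Pool.Agent.W333.BB.mp_rf p i).comp ih

/-- the times at which the line is in the polygon -/
theorem in_time (hp : IsConvexPolygon p) {z : ℂ} {θ : ℝ} {u : ℕ → Fin (n + 3)} {t : ℕ → ℝ}
    (O : Orb p z θ u t) {K : ℕ} {s : ℝ} (h : ps p z θ u K s ∈ reg p) :
    s < t K ∧ (1 ≤ K → tp t K < s) := by
  constructor
  · by_contra hc
    push Not at hc
    have h1 : 0 < sf p (u K) (ps p z θ u K s) := h (u K)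
    have h2 := side_zero hp (O.hit K)
    have h3 := sl_neg hp O K
    unfold ps at h1
    rw [sf_ray] at h1 h2
    have h4 := mul_nonneg (show 0 ≤ s - t K by linarith)
      (show 0 ≤ - sl p (u K) (angs p θ u K) by linarith)
    linarith
  · intro hK
    obtain ⟨k, rfl⟩ : ∃ k, K = k + 1 := ⟨K - 1, by omega⟩
    show t k < s
    by_contra hc
    push Not at hc
    have h1 : 0 < sf p (u k) (ps p z θ u (k + 1) s) := h (u k)
    have h2 : sf p (u k) (srcs p z u (k + 1) + t k • dir (angs p θ u (k + 1))) = 0 := by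
      rw [pt_next hp O]
      exact side_zero hp (O.hit k)
    have h3 := (pt_zero_next hp O k).2
    unfold ps at h1
    rw [sf_ray] at h1 h2
    have h4 := mul_nonneg (show 0 ≤ t k - s by linarith) h3.le
    linarith

/-- The values of the slice in the direction `θ` are in `C` on a nonempty open subset of the polygon,
up to a null set. -/
def Op (p : Fin (n + 3) → ℂ) (f : ℂ × ℝ → ℝ) (C : Set ℝ) (θ : ℝ) : Prop :=
  ∃ z0 ∈ reg p, ∃ ρ : ℝ, 0 < ρ ∧ ∀ᵐ z : ℂ, z ∈ reg p → ‖z - z0‖ < ρ → f (z, θ) ∈ C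

theorem to_vertex (hp : IsConvexPolygon p) {f : ℂ × ℝ → ℝ} (hI : IsInvariantFun p f)
    (C : Set ℝ) : ∀ᵐ θ : ℝ, Op p f C θ → ∃ (w : List (Fin (n + 3))) (j : Fin (n + 3)),
      Pool.Agent.N681.BP.fda p w θ ∈ FU p f C j := by
  have hrr := region_eq hp
  filter_upwards [Pool.Agent.N130.BP.t_allp n p hp, t_okae n p hp] with θ h2 h3 ⟨z0, hz0, ρ0, hρ0, hf0⟩
  have hdd : conj (dir θ) * dir θ = 1 := Pool.Agent.N262.BP.conj_dir_mul θ
  obtain ⟨ρ1, hρ1, hball⟩ := Metric.isOpen_iff.1 (reg_open hp) z0 hz0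
  obtain ⟨δ, hδ, hδ0, hδ1⟩ : ∃ δ : ℝ, 0 < δ ∧ 3 * δ ≤ ρ0 ∧ 3 * δ ≤ ρ1 :=
    ⟨min ρ0 ρ1 / 3, by positivity, by linarith [min_le_left ρ0 ρ1], by linarith [min_le_right ρ0 ρ1]⟩
  have hreg : ∀ y : ℂ, ‖y - z0‖ < 3 * δ → y ∈ reg p := fun y hy =>
    hball (by rw [mem_ball_iff_norm]; linarith)
  obtain ⟨z1, hz1, hz1b⟩ := (Measure.dense_of_ae h3).inter_nhds_nonempty
    (Metric.ball_mem_nhds z0 hδ)
  rw [Metric.mem_ball, dist_eq_norm] at hz1b
  have hz1r : z1 ∈ reg p := hreg z1 (by linarith)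
  obtain ⟨u, t, O⟩ := exists_orb hp (hz1 hz1r)
  obtain ⟨K, hW, j, hj, hjd⟩ :=
    Pool.Agent.N329.BP.t_first n p hp z1 θ u t O (h2 z1 hz1r u t O) δ hδ
  have hStay := Pool.Agent.N545.BP.t_stay my_opp Pool.Agent.N262.BP.t_exit t_shift
  obtain ⟨w, hw⟩ : ∃ w, w = (List.range K).map u := ⟨_, rfl⟩
  have hfd : ∀ (z : ℂ) (s : ℝ), fp p w (z + s • dir θ) = srcs p z u K + s • dir (angs p θ u K) ∧
      Pool.Agent.N681.BP.fda p w θ = angs p θ u K := by
    intro z s
    have h := fd_word hp z θ s u K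
    rw [← hw, Pool.Agent.N681.BP.fd_eq, Prod.mk.injEq] at h
    exact h
  refine ⟨w, j, ?_⟩
  rw [(hfd 0 0).2, fu_iff]
  refine ⟨δ - |vd p z1 θ u K j|, by linarith, ?_⟩
  have hq : ∀ᵐ y : ℂ, ∀ q : ℚ, (uf p w y - (q : ℝ) • dir θ ∈ reg p → Ok p (uf p w y - (q : ℝ) • dir θ) θ 0) ∧
      (uf p w y - (q : ℝ) • dir θ ∈ reg p → ‖uf p w y - (q : ℝ) • dir θ - z0‖ < ρ0 →
        f (uf p w y - (q : ℝ) • dir θ, θ) ∈ C) := by
    rw [ae_all_iff]
    intro q
    have hmp : MeasurePreserving (fun y : ℂ => uf p w y - (q : ℝ) • dir θ) :=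
      (measurePreserving_sub_right (volume : Measure ℂ) ((q : ℝ) • dir θ)).comp (mp_uf p w)
    exact hmp.quasiMeasurePreserving.ae (h3.and hf0)
  filter_upwards [hq] with y hy hyr hyn
  have huf : fp p w (uf p w y) = y := ((hR n p hp).2.2.2.2.2.2.1 w y).1
  -- distance from the line
  have hsd : ∀ s : ℝ, vd p (uf p w y - s • dir θ) θ u K j = sd p j (y, angs p θ u K) := by
    intro s
    have h4 := (hfd (uf p w y - s • dir θ) s).1
    rw [sub_add_cancel, huf] at h4
    have h5 := Pool.Agent.N262.BP.conj_dir_mul (angs p θ u K)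
    have key : ∀ X : ℂ, y = X + s • dir (angs p θ u K) →
        (conj (dir (angs p θ u K)) * (X - p j)).im = (conj (dir (angs p θ u K)) * (y - p j)).im := by
      intro X hX
      have h6 : conj (dir (angs p θ u K)) * (y - p j) = conj (dir (angs p θ u K)) *
          (X - p j) + (s : ℂ) := by
        rw [hX, real_smul]
        linear_combination (s : ℂ) * h5
      rw [h6, add_im, ofReal_im, add_zero]
    exact key _ h4
  have hsdn : |sd p j (y, angs p θ u K)| ≤ ‖y - p j‖ := by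
    unfold sd
    simp only
    refine (abs_im_le_norm _).trans ?_
    rw [norm_mul, RCLike.norm_conj, norm_dir, one_mul]
  have htv : ∀ s : ℝ, |tv θ (uf p w y - s • dir θ - z1)| < δ := by
    intro s
    have h4 := t_shift n p z1 (uf p w y - s • dir θ) θ u K j
    rw [hsd] at h4
    have h5 : |tv θ (uf p w y - s • dir θ - z1)| = |(-1) ^ K * tv θ (uf p w y - s • dir θ - z1)| := by
      rw [abs_mul, abs_pow, abs_neg, abs_one, one_pow, one_mul]
    rw [h5]
    have h6 : (-1) ^ K * tv θ (uf p w y - s • dir θ - z1) =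
        sd p j (y, angs p θ u K) - vd p z1 θ u K j := by
      linarith
    rw [h6]
    have h7 := abs_sub (sd p j (y, angs p θ u K)) (vd p z1 θ u K j)
    linarith
  -- a point of the line near `z1`
  set c : ℂ := conj (dir θ) * (uf p w y - z1) with hc
  have hcz : uf p w y - z1 = c * dir θ := by
    rw [hc]
    linear_combination (-(uf p w y - z1)) * hdd
  have hcim : |c.im| < δ := by
    have h4 := htv 0
    rw [zero_smul, sub_zero] at h4
    exact h4
  obtain ⟨q, hq1, hq2⟩ := exists_rat_btwn (show c.re < c.re + δ by linarith)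
  have hnorm : ‖uf p w y - (q : ℝ) • dir θ - z1‖ < 2 * δ := by
    have e : uf p w y - (q : ℝ) • dir θ - z1 = (c - (q : ℝ)) * dir θ := by
      rw [real_smul]
      linear_combination hcz
    rw [e, norm_mul, norm_dir, mul_one]
    refine (norm_le_abs_re_add_abs_im _).trans_lt ?_
    have e1 : (c - ((q : ℝ) : ℂ)).re = c.re - q := by simp
    have e2 : (c - ((q : ℝ) : ℂ)).im = c.im := by simp
    rw [e1, e2, abs_of_neg (by linarith)]
    linarith
  set z' : ℂ := uf p w y - (q : ℝ) • dir θ with hz'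
  have hz'0 : ‖z' - z0‖ < 3 * δ := by
    calc ‖z' - z0‖ = ‖(z' - z1) + (z1 - z0)‖ := by congr 1; ring
      _ ≤ ‖z' - z1‖ + ‖z1 - z0‖ := norm_add_le _ _
      _ < 3 * δ := by linarith
  have hz'r := hreg z' hz'0
  obtain ⟨hy1, hy2⟩ := hy q
  have hfz := hy2 hz'r (by linarith)
  obtain ⟨u', t', O'⟩ := exists_orb hp (hy1 hz'r)
  have hu : ∀ m < K, u' m = u m := hStay n p hp z1 z' θ u u' t t' O O' δ K hW (htv q)
  have hps : ps p z' θ u' K q = y := by
    unfold ps
    rw [srcs_congr hu, angs_congr hu, ← (hfd z' q).1, hz', sub_add_cancel, huf]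
  have hang : angs p θ u' K = angs p θ u K := angs_congr hu
  by_cases hK : 1 ≤ K
  · obtain ⟨k1, k2⟩ := in_time hp O' (K := K) (s := (q : ℝ)) (by rw [hps]; exact hyr)
    have h8 := along' hp hI hz'r O' K (k2 hK) k1
    rw [hps, hang] at h8
    rw [← h8]
    exact hfz
  · have hK0 : K = 0 := by omega
    subst hK0
    have h9 : z' + (q : ℝ) • dir θ = y := hps
    have h8 := hI.free z' θ q (by rw [hrr]; exact hz'r) (by rw [h9, hrr]; exact hyr)
    rw [h9] at h8
    show f (y, θ) ∈ C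
    rw [← h8]
    exact hfz

/-- If, for a non-null set of directions, the values are in `C` on an open set, then there is a vertex
near which the values are in `C`, for almost all directions. -/
theorem vertex_of_open (hp : IsConvexPolygon p) (hirr : ∀ i, Irrational (ang p i / π))
    {f : ℂ × ℝ → ℝ} (hf : Measurable f) (hI : IsInvariantFun p f) {C : Set ℝ}
    (hC : MeasurableSet C) (hpos : ¬ ∀ᵐ θ : ℝ, ¬ Op p f C θ) :
    ∃ i, ∀ᵐ θ : ℝ, θ ∈ FU p f C i := by
  by_contra hcon0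
  have hcon : ∀ i, ¬ ∀ᵐ θ : ℝ, θ ∈ FU p f C i := fun i h => hcon0 ⟨i, h⟩
  apply hpos
  have hnull : ∀ j, ∀ᵐ θ : ℝ, θ ∉ FU p f C j := by
    intro j
    rcases dich hp hf hI hC (hirr j) with h | h
    · exact measure_eq_zero_iff_ae_notMem.1 h
    · exact absurd h (hcon j)
  have hw : ∀ᵐ θ : ℝ, ∀ (w : List (Fin (n + 3))) (j : Fin (n + 3)),
      Pool.Agent.N681.BP.fda p w θ ∉ FU p f C j := by
    rw [ae_all_iff]
    intro w
    rw [ae_all_iff]
    intro j
    exact (Pool.Agent.N681.BP.mp_fda p w).quasiMeasurePreserving.ae (hnull j)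
  filter_upwards [hw, to_vertex hp hI C] with θ h1 h2 h3
  obtain ⟨w, j, h4⟩ := h2 h3
  exact h1 w j h4

end Pool.Agent.U106.OI
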